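import Pool.Agent.TRP.T1

/-!
# TRP-RES: resampling one site (helper89)
-/

set_option autoImplicit false

open MeasureTheory

noncomputable section

namespace Pool.Agent.TRP

namespace RES_

lemma prob (p : ℝ) (h0 : 0 ≤ p) (h1 : p ≤ 1) : IsProbabilityMeasure (bern p) := by
  constructor
  unfold bern
  rw [Measure.add_apply, Measure.smul_apply, Measure.smul_apply]
  simp only [measure_univ, smul_eq_mul, mul_one]
  rw [← ENNReal.ofReal_add h0 (by linarith)]
  simp

lemma int_bern (p : ℝ) (h0 : 0 ≤ p) (h1 : p ≤ 1) (g : Bool → ℝ) :
    ∫ b, g b ∂(bern p) = p * g true + (1 - p) * g false := by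
  unfold bern
  have i1 : Integrable g (ENNReal.ofReal p • Measure.dirac true) :=
    (integrable_dirac (by simp)).smul_measure ENNReal.ofReal_ne_top
  have i2 : Integrable g (ENNReal.ofReal (1 - p) • Measure.dirac false) :=
    (integrable_dirac (by simp)).smul_measure ENNReal.ofReal_ne_top
  rw [integral_add_measure i1 i2, integral_smul_measure, integral_smul_measure, integral_dirac,
    integral_dirac, ENNReal.toReal_ofReal h0, ENNReal.toReal_ofReal (by linarith)]
  rfl

/-- the update map -/
def up {V : Type} [DecidableEq V] (y : V) (z : Bool × (V → Bool)) : V → Bool :=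
  Function.update z.2 y z.1

lemma up_meas {V : Type} [DecidableEq V] (y : V) : Measurable (up y) := by
  refine measurable_pi_lambda _ fun x => ?_
  by_cases h : x = y
  · subst h
    have : (fun z : Bool × (V → Bool) => up x z x) = fun z => z.1 := by
      funext z
      simp [up]
    rw [this]
    exact measurable_fst
  · have : (fun z : Bool × (V → Bool) => up y z x) = fun z => z.2 x := by
      funext z
      simp [up, h]
    rw [this]
    exact (measurable_pi_apply x).comp measurable_snd

lemma map_up {V : Type} [DecidableEq V] (q : V → ℝ) (hq : ∀ x, 0 ≤ q x ∧ q x ≤ 1) (y : V) :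
    ((bern (q y)).prod (law q)).map (up y) = law q := by
  have hp : ∀ x, IsProbabilityMeasure (bern (q x)) := fun x => prob _ (hq x).1 (hq x).2
  have hl : IsProbabilityMeasure (law q) := by
    unfold law
    infer_instance
  refine Measure.eq_infinitePi _ fun s t ht => ?_
  have hmeas : MeasurableSet (Set.pi (s : Set V) t) :=
    MeasurableSet.pi s.countable_toSet fun i _ => ht i
  rw [Measure.map_apply (up_meas y) hmeas]
  have h1 : up y ⁻¹' (Set.pi (s : Set V) t) =
      (if y ∈ s then t y else Set.univ) ×ˢ (Set.pi ((s.erase y : Finset V) : Set V) t) := by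
    ext z
    simp only [Set.mem_preimage, Set.mem_pi, Finset.mem_coe, Set.mem_prod, Finset.mem_erase]
    constructor
    · intro h
      constructor
      · by_cases hy : y ∈ s
        · have := h y hy
          simpa [up, hy] using this
        · simp [hy]
      · rintro x ⟨hx, hxs⟩
        have := h x hxs
        simpa [up, hx] using this
    · rintro ⟨h2, h3⟩ x hx
      by_cases hxy : x = y
      · subst hxy
        simpa [up, hx] using h2
      · have := h3 x ⟨hxy, hx⟩
        simpa [up, hxy] using this
  rw [h1, Measure.prod_prod]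
  have h2 : law q (Set.pi ((s.erase y : Finset V) : Set V) t) =
      ∏ i ∈ s.erase y, bern (q i) (t i) := by
    unfold law
    exact Measure.infinitePi_pi _ fun i _ => ht _
  rw [h2]
  by_cases hy : y ∈ s
  · rw [if_pos hy, Finset.mul_prod_erase s (fun i => bern (q i) (t i)) hy]
  · rw [if_neg hy, Finset.erase_eq_of_notMem hy, measure_univ, one_mul]

end RES_

open RES_ in
theorem p_RES : T_RES := by
  intro V _ q hq
  have hp : ∀ x, IsProbabilityMeasure (bern (q x)) := fun x => prob _ (hq x).1 (hq x).2
  have hl : IsProbabilityMeasure (law q) := by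
    unfold law
    infer_instance
  refine ⟨hl, fun ψ C hψ hC y => ?_⟩
  have hi : Integrable (fun z => ψ (up y z)) ((bern (q y)).prod (law q)) :=
    Integrable.of_bound (C := C) (hψ.comp (up_meas y)).aestronglyMeasurable
      (Filter.Eventually.of_forall fun z => hC _)
  calc ∫ ω, ψ ω ∂(law q) = ∫ ω, ψ ω ∂(((bern (q y)).prod (law q)).map (up y)) := by
        rw [map_up q hq y]
    _ = ∫ z, ψ (up y z) ∂((bern (q y)).prod (law q)) :=
        integral_map (up_meas y).aemeasurable hψ.aestronglyMeasurable
    _ = ∫ ω, ∫ b, ψ (up y (b, ω)) ∂(bern (q y)) ∂(law q) := integral_prod_symm _ hi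
    _ = _ := by
        congr 1
        funext ω
        rw [int_bern _ (hq y).1 (hq y).2]
        rfl

end Pool.Agent.TRP
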