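import Pool.Agent.TRP.T1

/-!
# TRP-PERM: permutation invariance of the product law
-/

set_option autoImplicit false

open MeasureTheory

noncomputable section

namespace Pool.Agent.TRP

namespace PERM_

lemma prob (p : ℝ) (h0 : 0 ≤ p) (h1 : p ≤ 1) : IsProbabilityMeasure (bern p) := by
  constructor
  unfold bern
  rw [Measure.add_apply, Measure.smul_apply, Measure.smul_apply]
  simp only [measure_univ, smul_eq_mul, mul_one]
  rw [← ENNReal.ofReal_add h0 (by linarith)]
  simp

end PERM_

open PERM_ in
theorem p_PERM : T_PERM := by
  intro V q hq e he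
  have : ∀ x, IsProbabilityMeasure (bern (q x)) := fun x => prob _ (hq x).1 (hq x).2
  have hm : Measurable (fun (ω : V → Bool) (y : V) => ω (e y)) :=
    measurable_pi_lambda _ fun y => measurable_pi_apply (e y)
  unfold law
  refine Measure.eq_infinitePi _ fun s t ht => ?_
  have hmeas : MeasurableSet (Set.pi (s : Set V) t) :=
    MeasurableSet.pi s.countable_toSet fun i _ => ht i
  rw [Measure.map_apply hm hmeas]
  have h1 : (fun (ω : V → Bool) (y : V) => ω (e y)) ⁻¹' (Set.pi (s : Set V) t) =
      Set.pi ((s.map e.toEmbedding : Finset V) : Set V) (fun x => t (e.symm x)) := by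
    ext ω
    simp only [Set.mem_preimage, Set.mem_pi, Finset.mem_coe, Finset.mem_map, Equiv.coe_toEmbedding]
    constructor
    · rintro h x ⟨y, hy, rfl⟩
      simpa using h y hy
    · intro h y hy
      have := h (e y) ⟨y, hy, rfl⟩
      simpa using this
  rw [h1, Measure.infinitePi_pi _ fun i _ => ht _, Finset.prod_map]
  apply Finset.prod_congr rfl
  intro y _
  simp [he]

end Pool.Agent.TRP
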