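import Pool.Agent.TRP.Defs

/-!
# Trap on site percolation: targets

No draws of Trap on percolated `ℤ²`. Every target is a `Prop`; complete proofs are in the
docstrings. Every other target may be taken as a hypothesis.
-/

set_option autoImplicit false

open MeasureTheory

noncomputable section

namespace Pool.Agent.TRP

/-! ## The game, truncated -/

/-- The player to move at the position `(S, x)` can force a win within his next `n` moves. -/
def Win {V : Type} [DecidableEq V] (G : SimpleGraph V) : ℕ → Finset V → V → Prop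
  | 0, _, _ => False
  | n + 1, S, x => ∃ y, Legal G S x y ∧
      ∀ z, Legal G (insert y S) y z → Win G n (insert z (insert y S)) z

/-- The player who is not to move at the position `(S, x)` can force a win within his next `n`
moves. -/
def Lose {V : Type} [DecidableEq V] (G : SimpleGraph V) (n : ℕ) (S : Finset V) (x : V) : Prop :=
  ∀ y, Legal G S x y → Win G n (insert y S) y

/-- MONO. Induction on `n` (both parts follow from `Win n → Win (n+1)`).
EXCL. `Win n S x` and `Lose m S x` exclude each other: induction on `n + m`: `Win (n+1) S x` gives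
a legal `y` with `Lose n (insert y S) y`, and `Lose m S x` gives `Win m (insert y S) y`. -/
def T_MONO : Prop :=
  ∀ (V : Type) [DecidableEq V] (G : SimpleGraph V),
    (∀ n m S x, n ≤ m → Win G n S x → Win G m S x) ∧
    (∀ n m S x, n ≤ m → Lose G n S x → Lose G m S x) ∧
    (∀ n m S x, ¬ (Win G n S x ∧ Lose G m S x))

/-- STRAT. A forced win within `n` moves gives a winning strategy. Strategy `ρ` (a legal move when
one exists): at `(S, x)`, if `Win G k S x` for some `k`, take the least such `k` (it is `k'+1`) and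
choose a legal `y` with `Lose G k' (insert y S) y`, otherwise any legal move if there is one,
otherwise anything. Claim by induction on `k`, for every strategy `τ` of the opponent and every
time `n` at which the owner of `ρ` is to move: if the play is not stuck before time `n` and
`Win G k` holds at the position of time `n`, then the play ends at some `m ≥ n` at which the
opponent is to move. -/
def T_STRAT : Prop :=
  ∀ (V : Type) [DecidableEq V] (G : SimpleGraph V) (n : ℕ) (v : V),
    (Win G n {v} v → FirstWins G v) ∧ (Lose G n {v} v → SecondWins G v)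

/-! ## Matchings -/

/-- `E` is a matching inside `S`; its edges are written with the endpoint in `P` first. -/
def IsMat {V : Type} (G : SimpleGraph V) (P : V → Prop) (S : Finset V) (E : Finset (V × V)) :
    Prop :=
  (∀ e ∈ E, e.1 ∈ S ∧ e.2 ∈ S ∧ G.Adj e.1 e.2 ∧ P e.1) ∧
  (∀ e ∈ E, ∀ e' ∈ E, e.1 = e'.1 → e = e') ∧ (∀ e ∈ E, ∀ e' ∈ E, e.2 = e'.2 → e = e')

/-- The matching number of the subgraph induced on `S`. -/
def nu {V : Type} (G : SimpleGraph V) (P : V → Prop) (S : Finset V) : ℕ :=
  sSup {k | ∃ E, IsMat G P S E ∧ E.card = k}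

/-- `P` is one side of a bipartition. -/
def Bip {V : Type} (G : SimpleGraph V) (P : V → Prop) : Prop :=
  ∀ x y, G.Adj x y → (P x ↔ ¬ P y)

/-- NU1. Monotone, and `nu (S ∪ T) ≤ nu S + |T|` (delete from a maximum matching of `S ∪ T` the
edges which have an endpoint outside `S`; each of them has an endpoint in `T`, these endpoints are
distinct because one coordinate satisfies `P` and the other one does not). The set in the
definition of `nu` is bounded by `S.card` (first coordinates are distinct elements of `S`). -/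
def T_NU1 : Prop :=
  ∀ (V : Type) [DecidableEq V] (G : SimpleGraph V) (P : V → Prop), Bip G P →
    (∀ S T : Finset V, S ⊆ T → nu G P S ≤ nu G P T) ∧
    (∀ S T : Finset V, nu G P (S ∪ T) ≤ nu G P S + T.card)

/-- NU2. The recursion. (→) A maximum matching of `S` has an edge at `x` (otherwise it lies in
`S.erase x`); let `y` be its other endpoint; without this edge it is a matching of
`(S.erase x).erase y` with `nu S - 1 ≥ nu (S.erase x)` edges. (←) add the edge `x y` to a maximum
matching of `(S.erase x).erase y`. -/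
def T_NU2 : Prop :=
  ∀ (V : Type) [DecidableEq V] (G : SimpleGraph V) (P : V → Prop), Bip G P →
    ∀ (S : Finset V) (x : V), x ∈ S →
      (nu G P (S.erase x) < nu G P S ↔
        ∃ y ∈ S.erase x, G.Adj x y ∧ nu G P ((S.erase x).erase y) = nu G P (S.erase x))

/-- GAME. A player who always moves into the class `Q` (`Q` is `P` or its complement) can follow
the matchings. `S` is the current finite graph (token `u` included), `R` the set of visited
vertices, `O` the open vertices. Induction on `S.card`, from `T_NU2` and `nu (S.erase x) ≤ nu S`: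
first part: `T_NU2` gives `y ∈ S.erase u` adjacent to `u`, not essential in `S.erase u`; `Q y`, so
`y` is open and not visited; apply the second part to `S.erase u`, `insert y R`, `y`.
Second part: a legal `y` is in `S.erase u` by (H2), and it is essential in `S.erase u` by `T_NU2`;
apply the first part to `S.erase u`, `insert y R`, `y`, and `T_MONO`. -/
def T_GAME : Prop :=
  ∀ (V : Type) [DecidableEq V] (G : SimpleGraph V) (P Q : V → Prop) (O : Set V), Bip G P →
    Bip G Q → ∀ (n : ℕ) (S R : Finset V) (u : V), S.card ≤ n → u ∈ S → u ∈ R → u ∈ O →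
      (∀ y ∈ S, y ≠ u → Q y → y ∈ O ∧ y ∉ R) →
      (∀ y ∈ S, Q y → ∀ z, G.Adj y z → z ∈ O → z ∉ R → z ∈ S) →
      (¬ Q u → nu G P (S.erase u) < nu G P S → Win (brd G O) n R u) ∧
      (Q u → ¬ nu G P (S.erase u) < nu G P S → Lose (brd G O) n R u)

open Classical in
/-- The difference of the two matching numbers of the box `B` with open set `O`: the vertices of
the shell `X` in `P` are added for the first one, the others for the second one. -/
def DD {V : Type} [DecidableEq V] (G : SimpleGraph V) (P : V → Prop) (B X : Finset V)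
    (O : Set V) : ℝ :=
  (nu G P (B.filter (· ∈ O) ∪ X.filter P) : ℝ) - nu G P (B.filter (· ∈ O) ∪ X.filter (¬ P ·))

/-- DELTA. `O` is a set of open vertices with `x ∈ O`; `O \ {x}` is the same set with `x` closed.
Write `SA`, `SB` for the two vertex sets of `DD` at `O`; those at `O \ {x}` are `SA.erase x` and
`SB.erase x`. From `T_GAME` with `Q = ¬ P`, `S = SA`, `R = {x}`: if `x` is essential in `SA` then
`Win N`. From `T_GAME` with `Q = P`, `S = SB`: if `x` is not essential in `SB` then `Lose N`. By
`T_MONO` both do not happen together. `nu S - nu (S.erase x)` is `1` when `x` is essential in `S`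
and `0` otherwise (`T_NU1` with `T = {x}`). So the left side minus the right side is
`[x ess. in SB] - [x ess. in SA]`. -/
def T_DELTA : Prop :=
  ∀ (V : Type) [DecidableEq V] (G : SimpleGraph V) (P : V → Prop), Bip G P →
    ∀ (B X : Finset V), Disjoint B X → (∀ x ∈ B, ∀ y, G.Adj x y → y ∈ B ∨ y ∈ X) →
      ∀ (O : Set V) (x : V) (N : ℕ), x ∈ B → x ∈ O → P x → (B ∪ X).card ≤ N →
        DD G P B X O ≤ DD G P B X (O \ {x}) ∧
        (¬ Win (brd G O) N {x} x → ¬ Lose (brd G O) N {x} x →
          DD G P B X O + 1 ≤ DD G P B X (O \ {x}))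

/-! ## Undecided within `n` moves: measurability, locality, translations -/

/-- The open set of the configuration `ω` after the site `x` has been opened. -/
def opn {V : Type} (ω : V → Bool) (x : V) : Set V := {y | ω y = false ∨ y = x}

/-- No player can force a win within `n` moves, when the game starts at `x` and `x` is open. -/
def Und {V : Type} [DecidableEq V] (G : SimpleGraph V) (n : ℕ) (x : V) : Set (V → Bool) :=
  {ω | ¬ Win (brd G (opn ω x)) n {x} x ∧ ¬ Lose (brd G (opn ω x)) n {x} x}

/-- MEAS. By induction on `n`: `{ω | Win (brd G (opn ω x)) n S y}` is measurable for all `S`, `y`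
(countable unions and intersections over `y`, `z`; membership in `opn ω x` is measurable in `ω`). -/
def T_MEAS : Prop :=
  ∀ (V : Type) [Countable V] [DecidableEq V] (G : SimpleGraph V) (n : ℕ) (x : V),
    MeasurableSet (Und G n x)

/-- LOC. For a locally finite graph the event depends on finitely many sites: induction on `n`
(for all `S`, `y` there is a finite set `F` such that `Win (brd G (opn ω x)) n S y` depends only on
the restriction of `ω` to `F`: take the union of `{y}`, of the neighbours `z` of `y`, of their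
neighbours `w`, and of the sets of `(n-1, insert w (insert z S), w)`). -/
def T_LOC : Prop :=
  ∀ (V : Type) [DecidableEq V] (G : SimpleGraph V), (∀ x, {y | G.Adj x y}.Finite) →
    ∀ (n : ℕ) (x : V), ∃ F : Finset V, ∀ ω ω' : V → Bool, (∀ y ∈ F, ω y = ω' y) →
      (ω ∈ Und G n x ↔ ω' ∈ Und G n x)

/-- TRANS. Invariance under automorphisms `e` of the graph: `Win (brd G O) n S x` iff
`Win (brd G (e '' O)) n (S.image e) (e x)`, by induction on `n`. -/
def T_TRANS : Prop :=
  ∀ (V : Type) [DecidableEq V] (G : SimpleGraph V) (e : V ≃ V),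
    (∀ x y, G.Adj (e x) (e y) ↔ G.Adj x y) → ∀ (n : ℕ) (x : V) (ω : V → Bool),
      (ω ∈ Und G n (e x) ↔ (fun y => ω (e y)) ∈ Und G n x)

/-! ## Probability -/

/-- PERM. The product law is invariant under permutations of the sites which preserve the
densities: `Measure.infinitePi_map_piCongrLeft`, or `Measure.eq_infinitePi` directly. -/
def T_PERM : Prop :=
  ∀ (V : Type) (q : V → ℝ), (∀ x, 0 ≤ q x ∧ q x ≤ 1) → ∀ e : V ≃ V, (∀ x, q (e x) = q x) →
    (law q).map (fun ω y => ω (e y)) = law q

/-- RES. Resampling one site: the law is the image of `bern (q y) ⊗ law q` under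
`(b, ω) ↦ Function.update ω y b` (uniqueness `Measure.eq_infinitePi`), then
`MeasureTheory.integral_map`, Fubini, and the integral over `bern (q y)`. Also: `law q` is a
probability measure (first part; `bern p` is one). -/
def T_RES : Prop :=
  ∀ (V : Type) [DecidableEq V] (q : V → ℝ), (∀ x, 0 ≤ q x ∧ q x ≤ 1) →
    IsProbabilityMeasure (law q) ∧
    ∀ (ψ : (V → Bool) → ℝ) (C : ℝ), Measurable ψ → (∀ ω, |ψ ω| ≤ C) → ∀ y : V,
      ∫ ω, ψ ω ∂(law q) = ∫ ω, (q y * ψ (Function.update ω y true) +
        (1 - q y) * ψ (Function.update ω y false)) ∂(law q)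

/-- The score of a site: `1/a` when closed, `-1/(1-a)` when open. -/
def sc (a : ℝ) (b : Bool) : ℝ := if b then 1 / a else -(1 / (1 - a))

/-- The density of the law where the sites of `B` are closed with probability `a + t`. -/
def hh {V : Type} (a : ℝ) (B : Finset V) (t : ℝ) (ω : V → Bool) : ℝ :=
  ∏ x ∈ B, (1 + t * sc a (ω x))

/-- PROD. Facts on `hh`, for `|t| < a`, `|t| < 1 - a` where needed. Positivity is immediate
(`|t * sc| < 1`). From `T_RES`: if `φ` does not depend on the site `y ∈ B`, then
`∫ φ * g (ω y) = (∫ φ) * (a g(true) + (1-a) g(false))`; here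
`a (1 + t/a) + (1-a) (1 - t/(1-a)) = 1` and
`a (1 + t/a)^2 + (1-a) (1 - t/(1-a))^2 = 1 + t^2/(a(1-a)) ≤ exp (t^2/(a(1-a)))`. Induction on `B`.
Third part: integrate out the sites of `B \ F` (the function `φ` depends on the sites of `F`
only), then bound every remaining factor below by `1 - M t ≥ 0`. -/
def T_PROD : Prop :=
  ∀ (V : Type) [DecidableEq V] (q : V → ℝ), (∀ x, 0 ≤ q x ∧ q x ≤ 1) →
    ∀ (a : ℝ), 0 < a → a < 1 → ∀ (B : Finset V), (∀ x ∈ B, q x = a) →
      (∀ t ω, |t| < a → |t| < 1 - a → 0 < hh a B t ω) ∧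
      (∀ t, ∫ ω, hh a B t ω ∂(law q) = 1) ∧
      (∀ t, ∫ ω, hh a B t ω ^ 2 ∂(law q) ≤ Real.exp (t ^ 2 / (a * (1 - a)) * B.card)) ∧
      (∀ (φ : (V → Bool) → ℝ) (F : Finset V), Measurable φ → (∀ ω, 0 ≤ φ ω ∧ φ ω ≤ 1) →
        (∀ ω ω' : V → Bool, (∀ y ∈ F, ω y = ω' y) → φ ω = φ ω') →
        ∀ M t : ℝ, 1 / a ≤ M → 1 / (1 - a) ≤ M → 0 ≤ t → M * t < 1 →
          (1 - M * t) ^ F.card * ∫ ω, φ ω ∂(law q) ≤ ∫ ω, φ ω * hh a B t ω ∂(law q))

/-- DER. The derivative of the tilted expectation (Russo's formula). Pointwise the derivative of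
`t ↦ hh a B t ω` is `∑ x ∈ B, sc a (ω x) * ∏ y ∈ B.erase x, (1 + t * sc a (ω y))`
(`HasDerivAt.finset_prod`); everything is bounded for `t` in a bounded interval, so
`hasDerivAt_integral_of_dominated_loc_of_deriv_le` applies. With `R = ∏ y ∈ B.erase x, …`, which
does not depend on `ω x`, `T_RES` at the site `x` gives
`∫ f * sc a (ω x) * R = ∫ (f (update ω x true) - f (update ω x false)) * R` and the same function
times the factor `1 + t * sc a (ω x)` has the same integral (`T_RES` at `x` again). -/
def T_DER : Prop :=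
  ∀ (V : Type) [DecidableEq V] (q : V → ℝ), (∀ x, 0 ≤ q x ∧ q x ≤ 1) →
    ∀ (a : ℝ), 0 < a → a < 1 → ∀ (B : Finset V), (∀ x ∈ B, q x = a) →
      ∀ (f : (V → Bool) → ℝ) (C : ℝ), Measurable f → (∀ ω, |f ω| ≤ C) → ∀ t : ℝ,
        HasDerivAt (fun t => ∫ ω, f ω * hh a B t ω ∂(law q))
          (∑ x ∈ B, ∫ ω, (f (Function.update ω x true) - f (Function.update ω x false)) *
            hh a B t ω ∂(law q)) t

/-- LB. Cauchy–Schwarz: for events `U ⊆ U'`, `U'` depending on the sites of `F` only,
`∫ 1_U h = ∫ 1_U' h - ∫ 1_(U' \ U) h ≥ (1 - M t)^|F| P(U') - sqrt (P(U') - P(U)) sqrt (∫ h^2)`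
(`T_PROD`; `MeasureTheory.integral_mul_le_Lp_mul_Lq_of_nonneg` or the elementary
`|∫ f g| ≤ s/2 ∫ f² + 1/(2 s) ∫ g²`). -/
def T_LB : Prop :=
  ∀ (V : Type) [DecidableEq V] (q : V → ℝ), (∀ x, 0 ≤ q x ∧ q x ≤ 1) →
    ∀ (a : ℝ), 0 < a → a < 1 → ∀ (B : Finset V), (∀ x ∈ B, q x = a) →
      ∀ (U U' : Set (V → Bool)) (F : Finset V), MeasurableSet U → MeasurableSet U' → U ⊆ U' →
        (∀ ω ω' : V → Bool, (∀ y ∈ F, ω y = ω' y) → (ω ∈ U' ↔ ω' ∈ U')) →
        ∀ M t : ℝ, 1 / a ≤ M → 1 / (1 - a) ≤ M → 0 ≤ t → M * t < 1 →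
          (1 - M * t) ^ F.card * (law q).real U' -
            √((law q).real U' - (law q).real U) * Real.exp (t ^ 2 / (a * (1 - a)) * B.card / 2) ≤
            ∫ ω in U, hh a B t ω ∂(law q)

/-! ## The lattice `ℤ²` -/

/-- the even sites -/
def Ev (x : Fin 2 → ℤ) : Prop := Even (x 0 + x 1)

/-- the box -/
def box (L : ℕ) : Finset (Fin 2 → ℤ) :=
  Fintype.piFinset fun _ => Finset.Icc (-(L : ℤ)) L

/-- COUNT. `ℤ²` is bipartite, locally finite, countable (nothing to prove); the box has
`(2L+1)^2` sites, at least `2L^2` even ones (they contain the points `(i, j)` with `-L ≤ i ≤ L`,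
`-L ≤ j < L`, `i + j` even, or use any injection), the shell has `8L+8` sites, and a neighbour of
a site of `box L` is in `box (L+1)`. -/
def T_COUNT : Prop :=
  Bip (lattice 2) Ev ∧ (∀ x, {y | (lattice 2).Adj x y}.Finite) ∧
  (∀ L, (box L).card = (2 * L + 1) ^ 2) ∧ (∀ L, box L ⊆ box (L + 1)) ∧
  (∀ (L : ℕ) (F : Finset (Fin 2 → ℤ)), (∀ x, x ∈ F ↔ x ∈ box L ∧ Ev x) → 2 * L ^ 2 ≤ F.card) ∧
  (∀ L, ∀ x ∈ box L, ∀ y, (lattice 2).Adj x y → y ∈ box L ∨ y ∈ box (L + 1) \ box L)

/-- ABS. The abstract contradiction. `T n` decreases to its infimum `T`; if `T > 0` take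
`K = 100 / T`, then `n` with `√(T n - T) * exp (9 K² c) ≤ T/4` (`c` as in the hypothesis), and then
`L` large, so that `(1 - M t)^(C n) T n ≥ 3 T / 4` for `0 ≤ t ≤ K / L`; then for these `t` the
derivative is at least `m * T / 2 ≥ L² T`, and the mean value inequality
(`Convex.mul_sub_le_image_sub_of_le_deriv`) gives `100 L ≤ 16 L + 16`, contradiction for
`L ≥ 1`. -/
def T_ABS : Prop :=
  ∀ (T : ℕ → ℝ) (C : ℕ → ℕ) (M c δ : ℝ), 0 < M → 0 < c → 0 < δ → (∀ n, 0 ≤ T n) → Antitone T →
    (∀ L : ℕ, 1 ≤ L → ∃ (m N : ℕ) (f f' : ℝ → ℝ), 2 * L ^ 2 ≤ m ∧ m ≤ (2 * L + 1) ^ 2 ∧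
      (∀ t, 0 ≤ t → t < δ → |f t| ≤ 8 * L + 8) ∧
      (∀ t, HasDerivAt f (f' t) t) ∧
      (∀ n ≤ N, ∀ t, 0 ≤ t → t < δ → M * t < 1 →
        m * ((1 - M * t) ^ (C n) * T n - √(T n - T N) * Real.exp (c * t ^ 2 * m)) ≤ f' t) ∧
      L ≤ N) →
    ⨅ n, T n = 0

end Pool.Agent.TRP
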