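import Pool.Agent.TRP.T1

/-!
# MONO: monotonicity and exclusivity of truncated wins
-/

set_option autoImplicit false

noncomputable section

namespace Pool.Agent.TRP

namespace MONO_

theorem step {V : Type} [DecidableEq V] (G : SimpleGraph V) :
    ∀ (n : ℕ) (S : Finset V) (x : V), Win G n S x → Win G (n + 1) S x := by
  intro n
  induction n with
  | zero => intro S x h; exact h.elim
  | succ n ih =>
    rintro S x ⟨y, hy, h⟩
    exact ⟨y, hy, fun z hz => ih _ _ (h z hz)⟩

theorem win_mono {V : Type} [DecidableEq V] (G : SimpleGraph V) (n m : ℕ) (S : Finset V) (x : V)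
    (hnm : n ≤ m) (h : Win G n S x) : Win G m S x := by
  induction m, hnm using Nat.le_induction with
  | base => exact h
  | succ m _ ih => exact step G m S x ih

theorem excl {V : Type} [DecidableEq V] (G : SimpleGraph V) :
    ∀ (k n m : ℕ) (S : Finset V) (x : V), n + m ≤ k → ¬ (Win G n S x ∧ Lose G m S x) := by
  intro k
  induction k with
  | zero =>
    rintro n m S x hk ⟨h1, -⟩
    have hn : n = 0 := by omega
    subst hn
    exact h1
  | succ k ih =>
    rintro n m S x hk ⟨h1, h2⟩
    cases n with
    | zero => exact h1
    | succ n =>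
      obtain ⟨y, hy, h⟩ := h1
      exact ih m n (insert y S) y (by omega) ⟨h2 y hy, h⟩

end MONO_

open MONO_ in
theorem p_MONO : T_MONO := by
  intro V _ G
  exact ⟨fun n m S x h => win_mono G n m S x h,
    fun n m S x h hl y hy => win_mono G n m _ _ h (hl y hy),
    fun n m S x => excl G (n + m) n m S x le_rfl⟩

end Pool.Agent.TRP

end
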