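import Pool.Agent.TRP.T1

/-!
# STRAT: a truncated win gives a winning strategy
-/

set_option autoImplicit false

noncomputable section

namespace Pool.Agent.TRP

namespace STRAT_

variable {V : Type} [DecidableEq V] (G : SimpleGraph V)

lemma best (S : Finset V) (x : V) (h : ∃ k, Win G k S x) :
    ∃ y, Legal G S x y ∧ ∀ k, Win G k S x → ∃ k', k' < k ∧ Lose G k' (insert y S) y := by
  classical
  have h1 := Nat.find_spec h
  obtain ⟨k', hk'⟩ : ∃ k', Nat.find h = k' + 1 := by
    rcases Nat.eq_zero_or_pos (Nat.find h) with h0 | h0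
    · rw [h0] at h1
      exact h1.elim
    · exact ⟨Nat.find h - 1, by omega⟩
  rw [hk'] at h1
  obtain ⟨y, hy, h2⟩ := h1
  refine ⟨y, hy, fun k hk => ⟨k', ?_, h2⟩⟩
  have := Nat.find_min' h hk
  omega

/-- the strategy -/
lemma strat : ∃ ρ : Strategy G, ∀ S x k, Win G k S x →
    ∃ k', k' < k ∧ Lose G k' (insert (ρ.move S x) S) (ρ.move S x) := by
  classical
  have h : ∀ (S : Finset V) (x : V), ∃ y, ((∃ y', Legal G S x y') → Legal G S x y) ∧
      ∀ k, Win G k S x → ∃ k', k' < k ∧ Lose G k' (insert y S) y := by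
    intro S x
    by_cases h1 : ∃ k, Win G k S x
    · obtain ⟨y, hy, h2⟩ := best G S x h1
      exact ⟨y, fun _ => hy, h2⟩
    · by_cases h2 : ∃ y', Legal G S x y'
      · obtain ⟨y, hy⟩ := h2
        exact ⟨y, fun _ => hy, fun k hk => absurd ⟨k, hk⟩ h1⟩
      · exact ⟨x, fun h3 => absurd h3 h2, fun k hk => absurd ⟨k, hk⟩ h1⟩
  choose m hm using h
  exact ⟨⟨m, fun S x => (hm S x).1⟩, fun S x => (hm S x).2⟩

/-- the claim, for a sequence of positions -/
lemma claim (ρ : Strategy G) (hρ : ∀ S x k, Win G k S x →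
      ∃ k', k' < k ∧ Lose G k' (insert (ρ.move S x) S) (ρ.move S x))
    (q : ℕ → Finset V × V) (E : ℕ → Prop) (hE : ∀ n, E (n + 1) ↔ ¬ E n)
    (h1 : ∀ n, E n → q (n + 1) = (insert (ρ.move (q n).1 (q n).2) (q n).1, ρ.move (q n).1 (q n).2))
    (h2 : ∀ n, ¬ E n → ¬ Stuck G (q n) → ∃ z, Legal G (q n).1 (q n).2 z ∧
      q (n + 1) = (insert z (q n).1, z)) :
    ∀ k n, E n → (∀ m < n, ¬ Stuck G (q m)) → Win G k (q n).1 (q n).2 →
      ∃ m, ¬ E m ∧ Stuck G (q m) ∧ ∀ j < m, ¬ Stuck G (q j) := by
  intro k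
  induction k using Nat.strong_induction_on with
  | _ k ih =>
    intro n hn hs hw
    have hns : ¬ Stuck G (q n) := by
      intro h
      cases k with
      | zero => exact hw
      | succ k =>
        obtain ⟨y, hy, -⟩ := hw
        exact h y hy
    obtain ⟨k', hk', hl⟩ := hρ _ _ _ hw
    have e := h1 n hn
    have hs' : ∀ m < n + 1, ¬ Stuck G (q m) := by
      intro m hm
      rcases Nat.lt_succ_iff_lt_or_eq.1 hm with h | h
      · exact hs m h
      · rw [h]; exact hns
    have hn1 : ¬ E (n + 1) := fun h => (hE n).1 h hn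
    by_cases hst : Stuck G (q (n + 1))
    · exact ⟨n + 1, hn1, hst, hs'⟩
    · obtain ⟨z, hz, e2⟩ := h2 (n + 1) hn1 hst
      have hs'' : ∀ m < n + 2, ¬ Stuck G (q m) := by
        intro m hm
        rcases Nat.lt_succ_iff_lt_or_eq.1 hm with h | h
        · exact hs' m h
        · rw [h]; exact hst
      refine ih k' hk' (n + 2) ((hE (n + 1)).2 hn1) hs'' ?_
      have e3 : q (n + 2) = (insert z (q (n + 1)).1, z) := e2
      rw [e3]
      rw [e] at hz ⊢
      exact hl z hz

omit [DecidableEq V] in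
lemma move_legal (τ : Strategy G) (q : Finset V × V) (h : ¬ Stuck G q) :
    Legal G q.1 q.2 (τ.move q.1 q.2) := by
  refine τ.legal _ _ ?_
  by_contra h1
  exact h fun y hy => h1 ⟨y, hy⟩

end STRAT_

open STRAT_ in
theorem p_STRAT : T_STRAT := by
  intro V _ G n v
  obtain ⟨ρ, hρ⟩ := strat G
  constructor
  · intro hw
    refine ⟨ρ, fun τ => ?_⟩
    obtain ⟨m, hm, h1, h2⟩ := claim G ρ hρ (pos ρ τ v) (fun n => Even n)
      (fun n => by simp [Nat.even_add_one])
      (fun n hn => by
        show (insert (if Even n then _ else _) _, _) = _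
        rw [if_pos hn])
      (fun n hn hst => ⟨τ.move (pos ρ τ v n).1 (pos ρ τ v n).2, move_legal G τ _ hst, by
        show (insert (if Even n then _ else _) _, _) = _
        rw [if_neg hn]⟩) n 0 (by simp) (fun m hm => absurd hm (Nat.not_lt_zero m)) hw
    exact ⟨m, Nat.not_even_iff_odd.1 hm, h1, h2⟩
  · intro hl
    refine ⟨ρ, fun σ => ?_⟩
    by_cases h0 : Stuck G (pos σ ρ v 0)
    · exact ⟨0, by simp, h0, fun m hm => absurd hm (Nat.not_lt_zero m)⟩
    · have hz := move_legal G σ _ h0
      have hw : Win G n (pos σ ρ v 1).1 (pos σ ρ v 1).2 := by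
        have e : pos σ ρ v 1 = (insert (σ.move {v} v) {v}, σ.move {v} v) := by
          show (insert (if Even 0 then _ else _) _, _) = _
          rw [if_pos (by simp)]
          rfl
        rw [e]
        exact hl _ hz
      obtain ⟨m, hm, h1, h2⟩ := claim G ρ hρ (pos σ ρ v) (fun n => ¬ Even n)
        (fun n => by simp [Nat.even_add_one])
        (fun n hn => by
          show (insert (if Even n then _ else _) _, _) = _
          rw [if_neg hn])
        (fun n hn hst => ⟨σ.move (pos σ ρ v n).1 (pos σ ρ v n).2, move_legal G σ _ hst, by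
          show (insert (if Even n then _ else _) _, _) = _
          rw [if_pos (not_not.1 hn)]⟩) n 1 (by simp) (fun m hm => by
            have : m = 0 := by omega
            rw [this]; exact h0) hw
      exact ⟨m, not_not.1 hm, h1, h2⟩

end Pool.Agent.TRP

end
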