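import Pool.Agent.TRP.T1

/-!
# Trap: matching number, monotone and Lipschitz (helper7)
-/

set_option autoImplicit false

noncomputable section

namespace Pool.Agent.TRP.NU1_

open Pool.Agent.TRP

variable {V : Type} {G : SimpleGraph V} {P : V → Prop}

theorem card_le {S : Finset V} {E : Finset (V × V)} (h : IsMat G P S E) : E.card ≤ S.card := by
  classical
  refine Finset.card_le_card_of_injOn Prod.fst (fun e he => (h.1 e he).1) ?_
  intro e he e' he' hee
  exact h.2.1 e he e' he' hee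

theorem bdd (G : SimpleGraph V) (P : V → Prop) (S : Finset V) :
    BddAbove {k | ∃ E, IsMat G P S E ∧ E.card = k} := by
  refine ⟨S.card, ?_⟩
  rintro k ⟨E, hE, rfl⟩
  exact card_le hE

theorem isMat_empty (G : SimpleGraph V) (P : V → Prop) (S : Finset V) : IsMat G P S ∅ :=
  ⟨fun _ h => absurd h (Finset.notMem_empty _), fun _ h => absurd h (Finset.notMem_empty _),
    fun _ h => absurd h (Finset.notMem_empty _)⟩

/-- a maximum matching -/
theorem exists_max (G : SimpleGraph V) (P : V → Prop) (S : Finset V) :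
    ∃ E, IsMat G P S E ∧ E.card = nu G P S :=
  Nat.sSup_mem (s := {k | ∃ E, IsMat G P S E ∧ E.card = k})
    ⟨0, ∅, isMat_empty G P S, rfl⟩ (bdd G P S)

theorem le_nu {S : Finset V} {E : Finset (V × V)} (h : IsMat G P S E) : E.card ≤ nu G P S :=
  le_csSup (bdd G P S) ⟨E, h, rfl⟩

theorem mono {S T : Finset V} (hST : S ⊆ T) : nu G P S ≤ nu G P T := by
  obtain ⟨E, hE, h⟩ := exists_max G P S
  rw [← h]
  exact le_nu ⟨fun e he => ⟨hST (hE.1 e he).1, hST (hE.1 e he).2.1, (hE.1 e he).2.2⟩, hE.2⟩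

theorem lip [DecidableEq V] (hb : Bip G P) (S T : Finset V) :
    nu G P (S ∪ T) ≤ nu G P S + T.card := by
  obtain ⟨E, hE, h⟩ := exists_max G P (S ∪ T)
  rw [← h, ← Finset.card_filter_add_card_filter_not (s := E) (fun e => e.1 ∈ S ∧ e.2 ∈ S)]
  refine add_le_add ?_ ?_
  · refine le_nu ⟨fun e he => ?_, fun e he e' he' => ?_, fun e he e' he' => ?_⟩
    · rw [Finset.mem_filter] at he
      exact ⟨he.2.1, he.2.2, (hE.1 e he.1).2.2⟩
    · exact hE.2.1 e (Finset.mem_filter.1 he).1 e' (Finset.mem_filter.1 he').1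
    · exact hE.2.2 e (Finset.mem_filter.1 he).1 e' (Finset.mem_filter.1 he').1
  · refine Finset.card_le_card_of_injOn (fun e => if e.1 ∈ S then e.2 else e.1) ?_ ?_
    · intro e he
      rw [Finset.mem_coe, Finset.mem_filter] at he
      obtain ⟨he1, he2⟩ := he
      obtain ⟨h1, h2, -, -⟩ := hE.1 e he1
      show (if e.1 ∈ S then e.2 else e.1) ∈ (T : Set V)
      rw [Finset.mem_coe]
      by_cases h3 : e.1 ∈ S
      · rw [if_pos h3]
        exact (Finset.mem_union.1 h2).resolve_left fun h4 => he2 ⟨h3, h4⟩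
      · rw [if_neg h3]
        exact (Finset.mem_union.1 h1).resolve_left h3
    · intro e he e' he' hee
      rw [Finset.mem_coe, Finset.mem_filter] at he he'
      have h1 := (hE.1 e he.1).2.2
      have h2 := (hE.1 e' he'.1).2.2
      have h3 : ¬ P e.2 := (hb _ _ h1.1).1 h1.2
      have h4 : ¬ P e'.2 := (hb _ _ h2.1).1 h2.2
      have hee' : (if e.1 ∈ S then e.2 else e.1) = (if e'.1 ∈ S then e'.2 else e'.1) := hee
      by_cases h5 : e.1 ∈ S <;> by_cases h6 : e'.1 ∈ S
      · rw [if_pos h5, if_pos h6] at hee'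
        exact hE.2.2 e he.1 e' he'.1 hee'
      · rw [if_pos h5, if_neg h6] at hee'
        exact absurd h2.2 (by rw [← hee']; exact h3)
      · rw [if_neg h5, if_pos h6] at hee'
        exact absurd h1.2 (by rw [hee']; exact h4)
      · rw [if_neg h5, if_neg h6] at hee'
        exact hE.2.1 e he.1 e' he'.1 hee'

end Pool.Agent.TRP.NU1_

namespace Pool.Agent.TRP

theorem p_NU1 : T_NU1 := fun _ _ _ _ hb =>
  ⟨fun _ _ h => NU1_.mono h, fun S T => NU1_.lip hb S T⟩

end Pool.Agent.TRP
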