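import Pool.Agent.TRP.P_NU1

/-!
# Trap: recursion for essential vertices (helper45)
-/

set_option autoImplicit false

noncomputable section

namespace Pool.Agent.TRP.NU2_

open Pool.Agent.TRP

variable {V : Type} [DecidableEq V] {G : SimpleGraph V} {P : V → Prop}

/-- add an edge -/
theorem add_edge {S : Finset V} {a b : V} (ha : a ∈ S) (hb : b ∈ S) (hab : G.Adj a b) (hP : P a)
    {E : Finset (V × V)} (hE : IsMat G P ((S.erase a).erase b) E) :
    IsMat G P S (insert (a, b) E) ∧ (insert (a, b) E).card = E.card + 1 := by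
  have m1 : ∀ e ∈ E, (e.1 ∈ S ∧ e.1 ≠ a) ∧ (e.2 ∈ S ∧ e.2 ≠ b) := by
    intro e he
    obtain ⟨h1, h2, -, -⟩ := hE.1 e he
    simp only [Finset.mem_erase] at h1 h2
    exact ⟨⟨h1.2.2, h1.2.1⟩, ⟨h2.2.2, h2.1⟩⟩
  have hn : (a, b) ∉ E := fun h => (m1 _ h).1.2 rfl
  refine ⟨⟨fun e he => ?_, fun e he e' he' h => ?_, fun e he e' he' h => ?_⟩,
    Finset.card_insert_of_notMem hn⟩
  · rcases Finset.mem_insert.1 he with rfl | he
    · exact ⟨ha, hb, hab, hP⟩
    · exact ⟨(m1 e he).1.1, (m1 e he).2.1, (hE.1 e he).2.2⟩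
  · rcases Finset.mem_insert.1 he with rfl | he <;> rcases Finset.mem_insert.1 he' with rfl | he'
    · rfl
    · exact absurd h.symm (m1 e' he').1.2
    · exact absurd h (m1 e he).1.2
    · exact hE.2.1 e he e' he' h
  · rcases Finset.mem_insert.1 he with rfl | he <;> rcases Finset.mem_insert.1 he' with rfl | he'
    · rfl
    · exact absurd h.symm (m1 e' he').2.2
    · exact absurd h (m1 e he).2.2
    · exact hE.2.2 e he e' he' h

/-- delete an edge -/
theorem del_edge (hB : Bip G P) {S : Finset V} {a b : V} {E : Finset (V × V)}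
    (hE : IsMat G P S E) (h : (a, b) ∈ E) :
    IsMat G P ((S.erase a).erase b) (E.erase (a, b)) ∧ (E.erase (a, b)).card + 1 = E.card := by
  obtain ⟨-, -, hab, hPa⟩ := hE.1 _ h
  have hPb : ¬ P b := (hB _ _ hab).1 hPa
  refine ⟨⟨fun e he => ?_, fun e he e' he' => hE.2.1 e (Finset.mem_of_mem_erase he) e'
      (Finset.mem_of_mem_erase he'), fun e he e' he' => hE.2.2 e (Finset.mem_of_mem_erase he) e'
      (Finset.mem_of_mem_erase he')⟩, Finset.card_erase_add_one h⟩
  obtain ⟨hne, he⟩ := Finset.mem_erase.1 he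
  obtain ⟨h1, h2, h3, h4⟩ := hE.1 e he
  have h5 : ¬ P e.2 := (hB _ _ h3).1 h4
  refine ⟨?_, ?_, h3, h4⟩
  · simp only [Finset.mem_erase]
    refine ⟨fun h6 => hPb (h6 ▸ h4), fun h6 => hne (hE.2.1 e he (a, b) h h6), h1⟩
  · simp only [Finset.mem_erase]
    refine ⟨fun h6 => hne (hE.2.2 e he (a, b) h h6), fun h6 => h5 (h6 ▸ hPa), h2⟩

theorem fwd (hB : Bip G P) {S : Finset V} {x : V} (hlt : nu G P (S.erase x) < nu G P S) :
    ∃ y ∈ S.erase x, G.Adj x y ∧ nu G P ((S.erase x).erase y) = nu G P (S.erase x) := by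
  obtain ⟨E, hE, hc⟩ := NU1_.exists_max G P S
  have hex : ∃ e ∈ E, e.1 = x ∨ e.2 = x := by
    by_contra hcon
    push Not at hcon
    have h1 : IsMat G P (S.erase x) E := by
      refine ⟨fun e he => ?_, hE.2⟩
      obtain ⟨h1, h2, h3⟩ := hE.1 e he
      exact ⟨Finset.mem_erase.2 ⟨(hcon e he).1, h1⟩, Finset.mem_erase.2 ⟨(hcon e he).2, h2⟩, h3⟩
    have h2 := NU1_.le_nu h1
    omega
  obtain ⟨⟨a, b⟩, he, h1⟩ := hex
  obtain ⟨haS, hbS, hab, hPa⟩ := hE.1 _ he
  obtain ⟨h2, h3⟩ := del_edge hB hE he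
  have h4 := NU1_.le_nu h2
  have hne : a ≠ b := hab.ne
  rcases h1 with h1 | h1
  · subst h1
    refine ⟨b, Finset.mem_erase.2 ⟨hne.symm, hbS⟩, hab, le_antisymm
      (NU1_.mono (Finset.erase_subset _ _)) ?_⟩
    change nu G P (S.erase a) ≤ nu G P ((S.erase a).erase b)
    change nu G P (S.erase a) < nu G P S at hlt
    omega
  · subst h1
    refine ⟨a, Finset.mem_erase.2 ⟨hne, haS⟩, hab.symm, le_antisymm
      (NU1_.mono (Finset.erase_subset _ _)) ?_⟩
    change nu G P (S.erase b) ≤ nu G P ((S.erase b).erase a)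
    rw [Finset.erase_right_comm] at h4
    change nu G P (S.erase b) < nu G P S at hlt
    omega

theorem bwd (hB : Bip G P) {S : Finset V} {x y : V} (hx : x ∈ S) (hy : y ∈ S.erase x)
    (hxy : G.Adj x y) (h : nu G P ((S.erase x).erase y) = nu G P (S.erase x)) :
    nu G P (S.erase x) < nu G P S := by
  obtain ⟨-, hyS⟩ := Finset.mem_erase.1 hy
  obtain ⟨E, hE, hc⟩ := NU1_.exists_max G P ((S.erase x).erase y)
  by_cases hP : P x
  · obtain ⟨h1, h2⟩ := add_edge hx hyS hxy hP hE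
    have h3 := NU1_.le_nu h1
    omega
  · have hPy : P y := by
      by_contra h1
      exact hP ((hB x y hxy).2 h1)
    rw [Finset.erase_right_comm] at hE
    obtain ⟨h1, h2⟩ := add_edge hyS hx hxy.symm hPy hE
    have h3 := NU1_.le_nu h1
    omega

end Pool.Agent.TRP.NU2_

namespace Pool.Agent.TRP

theorem p_NU2 : T_NU2 := fun _ _ _ _ hB _ _ hx =>
  ⟨fun h => NU2_.fwd hB h, fun ⟨_, hy, hxy, h⟩ => NU2_.bwd hB hx hy hxy h⟩

end Pool.Agent.TRP
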