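import Pool.Agent.TRP.T1

/-!
# Trap: the game lemma (helper14)
-/

set_option autoImplicit false

noncomputable section

namespace Pool.Agent.TRP

theorem p_GAME (h1 : T_NU1) (h2 : T_NU2) (h3 : T_MONO) : T_GAME := by
  intro V _ G P Q O hP hQ n
  induction n with
  | zero =>
    intro S R u hc huS
    exact absurd (Finset.card_pos.2 ⟨u, huS⟩) (by omega)
  | succ n ih =>
    intro S R u hc huS huR huO H1 H2
    have hc' : (S.erase u).card ≤ n := by
      rw [Finset.card_erase_of_mem huS]; omega
    have key : ∀ y, y ∈ S.erase u → y ∈ O →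
        (¬ Q y → nu G P ((S.erase u).erase y) < nu G P (S.erase u) →
          Win (brd G O) n (insert y R) y) ∧
        (Q y → ¬ nu G P ((S.erase u).erase y) < nu G P (S.erase u) →
          Lose (brd G O) n (insert y R) y) := by
      intro y hy hyO
      refine ih (S.erase u) (insert y R) y hc' hy (Finset.mem_insert_self _ _) hyO ?_ ?_
      · intro w hw hwy hQw
        obtain ⟨hwu, hwS⟩ := Finset.mem_erase.1 hw
        obtain ⟨ha, hb⟩ := H1 w hwS hwu hQw
        refine ⟨ha, fun h => ?_⟩
        rcases Finset.mem_insert.1 h with h | h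
        · exact hwy h
        · exact hb h
      · intro w hw hQw z hwz hzO hz
        have hzR : z ∉ R := fun h => hz (Finset.mem_insert_of_mem h)
        refine Finset.mem_erase.2 ⟨fun h => hzR (h ▸ huR), ?_⟩
        exact H2 w (Finset.mem_of_mem_erase hw) hQw z hwz hzO hzR
    constructor
    · intro hQu hlt
      obtain ⟨y, hy, hadj, heq⟩ := (h2 V G P hP S u huS).1 hlt
      have hQy : Q y := by
        by_contra h
        exact hQu ((hQ u y hadj).2 h)
      obtain ⟨hyu, hyS⟩ := Finset.mem_erase.1 hy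
      obtain ⟨hyO, hyR⟩ := H1 y hyS hyu hQy
      refine ⟨y, ⟨⟨hadj, huO, hyO⟩, hyR⟩, ?_⟩
      exact (key y hy hyO).2 hQy (by rw [heq]; exact lt_irrefl _)
    · intro hQu hlt y hy
      obtain ⟨⟨hadj, -, hyO⟩, hyR⟩ := hy
      have hyS : y ∈ S := H2 u huS hQu y hadj hyO hyR
      have hyu : y ≠ u := fun h => hyR (h ▸ huR)
      have hy' : y ∈ S.erase u := Finset.mem_erase.2 ⟨hyu, hyS⟩
      have hQy : ¬ Q y := (hQ u y hadj).1 hQu
      have hne : nu G P ((S.erase u).erase y) ≠ nu G P (S.erase u) := fun h =>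
        hlt ((h2 V G P hP S u huS).2 ⟨y, hy', hadj, h⟩)
      have hle : nu G P ((S.erase u).erase y) ≤ nu G P (S.erase u) :=
        (h1 V G P hP).1 _ _ (Finset.erase_subset _ _)
      exact (h3 V (brd G O)).1 n (n + 1) _ _ (Nat.le_succ n)
        ((key y hy' hyO).1 hQy (lt_of_le_of_ne hle hne))

end Pool.Agent.TRP
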