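import Pool.Agent.TRP.T1

/-!
# TRP: Cauchy–Schwarz lower bound
-/

set_option autoImplicit false

open MeasureTheory

namespace Pool.Agent.TRP

theorem lbx (hR : T_RES) (hPr : T_PROD) : T_LB := by
  classical
  intro V _ q hq a ha ha1 B hqB U U' F hU hU' hsub hdep M t hM1 hM2 ht0 hMt
  obtain ⟨iP, -⟩ := hR V q hq
  obtain ⟨p1, p2, p3, p4⟩ := hPr V q hq a ha ha1 B hqB
  have ha' : 0 < 1 - a := by linarith
  set P := law q with hP
  have hta : t < a := by
    have : t / a < 1 := by
      calc t / a = (1 / a) * t := by ring
        _ ≤ M * t := mul_le_mul_of_nonneg_right hM1 ht0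
        _ < 1 := hMt
    rwa [div_lt_one ha] at this
  have hta' : t < 1 - a := by
    have : t / (1 - a) < 1 := by
      calc t / (1 - a) = (1 / (1 - a)) * t := by ring
        _ ≤ M * t := mul_le_mul_of_nonneg_right hM2 ht0
        _ < 1 := hMt
    rwa [div_lt_one ha'] at this
  have hpos : ∀ ω, 0 < hh a B t ω := fun ω => p1 t ω (by rwa [abs_of_nonneg ht0])
    (by rwa [abs_of_nonneg ht0])
  have hint : Integrable (hh a B t) P := by
    by_contra hcon
    have := p2 t
    rw [integral_undef hcon] at this
    exact zero_ne_one this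
  -- measurability and bound of hh
  have hmeas : Measurable (hh a B t) := by
    unfold hh
    refine Finset.measurable_prod _ fun x _ => ?_
    exact measurable_const.add (measurable_const.mul
      ((measurable_of_finite (sc a)).comp (measurable_pi_apply x)))
  have hsc : ∀ b, |sc a b| ≤ M := by
    intro b
    unfold sc
    cases b
    · simp only [Bool.false_eq_true, if_false, abs_neg]
      rw [abs_of_pos (by positivity)]; exact hM2
    · simp only [if_true]
      rw [abs_of_pos (by positivity)]; exact hM1
  have hbd : ∀ ω, ‖hh a B t ω‖ ≤ 2 ^ B.card := by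
    intro ω
    rw [Real.norm_eq_abs]
    unfold hh
    rw [Finset.abs_prod, ← Finset.prod_const]
    refine Finset.prod_le_prod (fun _ _ => abs_nonneg _) fun x _ => ?_
    calc |1 + t * sc a (ω x)| ≤ 1 + |t * sc a (ω x)| := by
          simpa using abs_add_le 1 (t * sc a (ω x))
      _ ≤ 1 + 1 := by
          rw [abs_mul, abs_of_nonneg ht0]
          have := mul_le_mul_of_nonneg_left (hsc (ω x)) ht0
          nlinarith
      _ = 2 := by norm_num
  have e1 : ∫ ω in U', hh a B t ω ∂P = ∫ ω in U, hh a B t ω ∂P + ∫ ω in U' \ U, hh a B t ω ∂P := by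
    rw [← setIntegral_union Set.disjoint_sdiff_right (hU'.diff hU) hint.integrableOn
      hint.integrableOn, Set.union_sdiff_cancel hsub]
  have e2 : (1 - M * t) ^ F.card * P.real U' ≤ ∫ ω in U', hh a B t ω ∂P := by
    have := p4 (U'.indicator 1) F (measurable_one.indicator hU') (fun ω => by
      by_cases h : ω ∈ U'
      · rw [Set.indicator_of_mem h]; simp
      · rw [Set.indicator_of_notMem h]; simp) (fun ω ω' h => by
      have := hdep ω ω' h
      by_cases h' : ω ∈ U'
      · rw [Set.indicator_of_mem h', Set.indicator_of_mem (this.1 h')]; rfl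
      · rw [Set.indicator_of_notMem h', Set.indicator_of_notMem (fun k => h' (this.2 k))])
      M t hM1 hM2 ht0 hMt
    rw [integral_indicator_one hU'] at this
    refine this.trans (le_of_eq ?_)
    rw [← integral_indicator hU']
    refine integral_congr_ae (Filter.Eventually.of_forall fun ω => ?_)
    by_cases h : ω ∈ U'
    · simp [Set.indicator_of_mem h]
    · simp [Set.indicator_of_notMem h]
  have e3 : ∫ ω in U' \ U, hh a B t ω ∂P ≤
      √(P.real U' - P.real U) * Real.exp (t ^ 2 / (a * (1 - a)) * B.card / 2) := by
    have hD : MeasurableSet (U' \ U) := hU'.diff hU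
    have hreal : P.real U' - P.real U = P.real (U' \ U) := by
      rw [measureReal_sdiff hsub hU]
    have h1 : ∫ ω in U' \ U, hh a B t ω ∂P =
        ∫ ω, (U' \ U).indicator (1 : (V → Bool) → ℝ) ω * hh a B t ω ∂P := by
      rw [← integral_indicator hD]
      refine integral_congr_ae (Filter.Eventually.of_forall fun ω => ?_)
      by_cases h : ω ∈ U' \ U
      · simp only [Set.indicator_of_mem h, Pi.one_apply, one_mul]
      · simp only [Set.indicator_of_notMem h, zero_mul]
    have hm1 : MemLp ((U' \ U).indicator (1 : (V → Bool) → ℝ)) (ENNReal.ofReal 2) P := by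
      refine MemLp.of_bound (measurable_one.indicator hD).aestronglyMeasurable 1
        (Filter.Eventually.of_forall fun ω => ?_)
      by_cases h : ω ∈ U' \ U
      · simp only [Set.indicator_of_mem h, Pi.one_apply, norm_one, le_refl]
      · simp only [Set.indicator_of_notMem h, norm_zero, zero_le_one]
    have hm2 : MemLp (hh a B t) (ENNReal.ofReal 2) P :=
      MemLp.of_bound hmeas.aestronglyMeasurable _ (Filter.Eventually.of_forall hbd)
    have cs := integral_mul_le_Lp_mul_Lq_of_nonneg (μ := P) (p := 2) (q := 2)
      (Real.HolderConjugate.two_two) (f := (U' \ U).indicator (1 : (V → Bool) → ℝ))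
      (g := hh a B t) (Filter.Eventually.of_forall fun ω => Set.indicator_nonneg
        (fun _ _ => zero_le_one) ω) (Filter.Eventually.of_forall fun ω => (hpos ω).le) hm1 hm2
    rw [h1]
    refine cs.trans ?_
    have i1 : ∫ ω, (U' \ U).indicator (1 : (V → Bool) → ℝ) ω ^ (2 : ℝ) ∂P = P.real (U' \ U) := by
      rw [← integral_indicator_one hD]
      refine integral_congr_ae (Filter.Eventually.of_forall fun ω => ?_)
      by_cases h : ω ∈ U' \ U
      · simp only [Set.indicator_of_mem h, Pi.one_apply, Real.one_rpow]
      · simp only [Set.indicator_of_notMem h]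
        rw [Real.zero_rpow (by norm_num)]
    have i2 : ∫ ω, hh a B t ω ^ (2 : ℝ) ∂P ≤ Real.exp (t ^ 2 / (a * (1 - a)) * B.card) := by
      refine le_trans (le_of_eq ?_) (p3 t)
      refine integral_congr_ae (Filter.Eventually.of_forall fun ω => ?_)
      simp only
      rw [← Real.rpow_natCast]; norm_num
    rw [i1, hreal, ← Real.sqrt_eq_rpow, ← Real.sqrt_eq_rpow]
    refine mul_le_mul_of_nonneg_left ?_ (Real.sqrt_nonneg _)
    exact (Real.sqrt_le_sqrt i2).trans (le_of_eq (Real.exp_half _).symm)
  linarith

end Pool.Agent.TRP
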