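import Pool.Agent.TRP.T1

set_option autoImplicit false

/-! Project TRP, target ABS: the abstract contradiction. -/

open Filter Topology

namespace Pool.Agent.TRP

theorem p_ABS : T_ABS := by
  intro T C M c δ hM hc hδ hT0 hanti h
  by_contra hne
  have hbdd : BddBelow (Set.range T) := ⟨0, by rintro _ ⟨n, rfl⟩; exact hT0 n⟩
  have hI0 : 0 ≤ ⨅ n, T n := le_ciInf hT0
  set I := ⨅ n, T n with hI
  have hIpos : 0 < I := lt_of_le_of_ne hI0 (Ne.symm hne)
  have hle : ∀ n, I ≤ T n := fun n => ciInf_le hbdd n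
  have htend : Tendsto T atTop (𝓝 I) := tendsto_atTop_ciInf hanti hbdd
  obtain ⟨K, hKdef⟩ : ∃ K : ℝ, K = 100 / I := ⟨_, rfl⟩
  have hK : 0 < K := by rw [hKdef]; positivity
  have hKI : K * I = 100 := by rw [hKdef]; field_simp
  -- choose `n`
  have h1 : Tendsto (fun n => √(T n - I) * Real.exp (9 * K ^ 2 * c)) atTop (𝓝 0) := by
    have := ((htend.sub_const I).sqrt).mul_const (Real.exp (9 * K ^ 2 * c))
    simpa using this
  obtain ⟨n, hn⟩ := (h1.eventually_le_const (show (0 : ℝ) < I / 4 by positivity)).exists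
  -- choose `L`
  have h2 : Tendsto (fun L : ℕ => K / (L : ℝ)) atTop (𝓝 0) := tendsto_const_div_atTop_nhds_zero_nat K
  have h2' : Tendsto (fun L : ℕ => M * (K / (L : ℝ))) atTop (𝓝 0) := by
    simpa using h2.const_mul M
  have h3 : Tendsto (fun L : ℕ => (1 - M * (K / (L : ℝ))) ^ (C n)) atTop (𝓝 1) := by
    simpa using (h2'.const_sub 1).pow (C n)
  obtain ⟨L, hL1, hL2, hL3, hL4⟩ := ((h2.eventually_lt_const hδ).and
    ((h2'.eventually_lt_const one_pos).and
    ((h3.eventually_const_le (show (3 / 4 : ℝ) < 1 by norm_num)).and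
      (eventually_ge_atTop (max n 1))))).exists
  have hLn : n ≤ L := (le_max_left _ _).trans hL4
  have hL : 1 ≤ L := (le_max_right _ _).trans hL4
  have hLR : (1 : ℝ) ≤ L := by exact_mod_cast hL
  have hL0 : (0 : ℝ) < L := by linarith
  obtain ⟨m, N, f, f', hm1, hm2, hf, hder, hlow, hLN⟩ := h L hL
  have hm1' : 2 * (L : ℝ) ^ 2 ≤ m := by exact_mod_cast hm1
  have hm2' : (m : ℝ) ≤ 9 * (L : ℝ) ^ 2 := by
    have : (m : ℝ) ≤ (2 * (L : ℝ) + 1) ^ 2 := by exact_mod_cast hm2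
    nlinarith
  have hm0 : (0 : ℝ) ≤ m := Nat.cast_nonneg m
  have hKL : 0 < K / L := by positivity
  -- lower bound for the derivative
  have key : ∀ t, 0 ≤ t → t ≤ K / L → (L : ℝ) ^ 2 * I ≤ f' t := by
    intro t ht0 ht1
    have ht2 : M * t ≤ M * (K / L) := mul_le_mul_of_nonneg_left ht1 hM.le
    have h4 := hlow n (hLn.trans hLN) t ht0 (ht1.trans_lt hL1) (ht2.trans_lt hL2)
    have h5 : (3 / 4 : ℝ) ≤ (1 - M * t) ^ (C n) :=
      hL3.trans (pow_le_pow_left₀ (by linarith) (by linarith) _)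
    have h6 : c * t ^ 2 * m ≤ 9 * K ^ 2 * c := by
      have h7 : t ^ 2 ≤ (K / L) ^ 2 := pow_le_pow_left₀ ht0 ht1 2
      have h8 : t ^ 2 * m ≤ (K / L) ^ 2 * (9 * (L : ℝ) ^ 2) :=
        mul_le_mul h7 hm2' hm0 (by positivity)
      have h9 : (K / L) ^ 2 * (9 * (L : ℝ) ^ 2) = 9 * K ^ 2 := by
        field_simp
      rw [h9] at h8
      nlinarith
    have h7 : √(T n - T N) * Real.exp (c * t ^ 2 * m) ≤ I / 4 := by
      refine le_trans ?_ hn
      refine mul_le_mul (Real.sqrt_le_sqrt (by linarith [hle N])) (Real.exp_le_exp.2 h6)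
        (Real.exp_pos _).le (Real.sqrt_nonneg _)
    have h8 : 3 / 4 * I ≤ (1 - M * t) ^ (C n) * T n :=
      mul_le_mul h5 (hle n) hI0 (le_trans (by norm_num) h5)
    have h9 : I / 2 ≤ (1 - M * t) ^ (C n) * T n - √(T n - T N) * Real.exp (c * t ^ 2 * m) := by
      linarith
    have h10 : (m : ℝ) * (I / 2) ≤ f' t :=
      (mul_le_mul_of_nonneg_left h9 hm0).trans h4
    have h11 : 2 * (L : ℝ) ^ 2 * (I / 2) ≤ (m : ℝ) * (I / 2) :=
      mul_le_mul_of_nonneg_right hm1' (by positivity)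
    linarith
  have hmv : (L : ℝ) ^ 2 * I * (K / L - 0) ≤ f (K / L) - f 0 := by
    refine Convex.mul_sub_le_image_sub_of_le_deriv (D := Set.Icc 0 (K / L)) (convex_Icc _ _)
      (fun x _ => (hder x).continuousAt.continuousWithinAt)
      (fun x _ => (hder x).differentiableAt.differentiableWithinAt) ?_ 0
      (Set.left_mem_Icc.2 hKL.le) (K / L) (Set.right_mem_Icc.2 hKL.le) hKL.le
    intro x hx
    rw [interior_Icc] at hx
    rw [(hder x).deriv]
    exact key x hx.1.le hx.2.le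
  have h12 : (L : ℝ) ^ 2 * I * (K / L - 0) = 100 * L := by
    have : (L : ℝ) ^ 2 * I * (K / L - 0) = L * (K * I) := by
      field_simp
      ring
    rw [this, hKI]
    ring
  have h13 := abs_le.1 (hf (K / L) hKL.le hL1)
  have h14 := abs_le.1 (hf 0 le_rfl hδ)
  rw [h12] at hmv
  linarith [h13.2, h14.1]

end Pool.Agent.TRP
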