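import Pool.Agent.TRP.T1

/-!
# Trap on site percolation: boxes in `ℤ²` (COUNT)
-/

set_option autoImplicit false

noncomputable section

namespace Pool.Agent.TRP

namespace COUNT_

theorem adj_iff (x y : Fin 2 → ℤ) :
    (lattice 2).Adj x y ↔ |x 0 - y 0| + |x 1 - y 1| = 1 := by
  show ∑ i, |x i - y i| = 1 ↔ _
  rw [Fin.sum_univ_two]

theorem mem_box (L : ℕ) (x : Fin 2 → ℤ) :
    x ∈ box L ↔ (-(L : ℤ) ≤ x 0 ∧ x 0 ≤ L) ∧ (-(L : ℤ) ≤ x 1 ∧ x 1 ≤ L) := by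
  unfold box
  rw [Fintype.mem_piFinset]
  constructor
  · intro h
    exact ⟨Finset.mem_Icc.1 (h 0), Finset.mem_Icc.1 (h 1)⟩
  · intro h i
    rw [Finset.mem_Icc]
    fin_cases i
    · exact h.1
    · exact h.2

theorem bip : Bip (lattice 2) Ev := by
  intro x y h
  rw [adj_iff] at h
  unfold Ev
  rw [Int.even_iff, Int.even_iff]
  rcases abs_cases (x 0 - y 0) with h1 | h1 <;> rcases abs_cases (x 1 - y 1) with h2 | h2 <;> omega

theorem near (x y : Fin 2 → ℤ) (h : (lattice 2).Adj x y) :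
    (x 0 - 1 ≤ y 0 ∧ y 0 ≤ x 0 + 1) ∧ (x 1 - 1 ≤ y 1 ∧ y 1 ≤ x 1 + 1) := by
  rw [adj_iff] at h
  rcases abs_cases (x 0 - y 0) with h1 | h1 <;> rcases abs_cases (x 1 - y 1) with h2 | h2 <;> omega

theorem fin (x : Fin 2 → ℤ) : {y | (lattice 2).Adj x y}.Finite := by
  refine Set.Finite.subset
    (Fintype.piFinset fun i : Fin 2 => Finset.Icc (x i - 1) (x i + 1)).finite_toSet ?_
  intro y hy
  rw [Finset.mem_coe, Fintype.mem_piFinset]
  intro i
  rw [Finset.mem_Icc]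
  have h := near x y hy
  fin_cases i
  · exact h.1
  · exact h.2

theorem card_box (L : ℕ) : (box L).card = (2 * L + 1) ^ 2 := by
  unfold box
  rw [Fintype.card_piFinset, Finset.prod_const, Int.card_Icc, Finset.card_univ, Fintype.card_fin]
  congr 1
  omega

theorem box_mono (L : ℕ) : box L ⊆ box (L + 1) := by
  intro x hx
  rw [mem_box] at hx ⊢
  push_cast
  omega

/-- even points of the box -/
def pt (L : ℕ) (e : ℕ × ℕ) : Fin 2 → ℤ :=
  ![(e.1 : ℤ) - L, 2 * (e.2 : ℤ) + ((e.1 % 2 : ℕ) : ℤ) - L]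

theorem even_card (L : ℕ) (F : Finset (Fin 2 → ℤ)) (hF : ∀ x, x ∈ F ↔ x ∈ box L ∧ Ev x) :
    2 * L ^ 2 ≤ F.card := by
  have h1 : (Finset.range (2 * L) ×ˢ Finset.range L).card ≤ F.card := by
    refine Finset.card_le_card_of_injOn (pt L) ?_ ?_
    · rintro ⟨p, k⟩ he
      rw [Finset.mem_coe, Finset.mem_product, Finset.mem_range, Finset.mem_range] at he
      simp only at he
      rw [Finset.mem_coe, hF, mem_box]
      unfold Ev
      rw [Int.even_iff]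
      show ((-(L : ℤ) ≤ (p : ℤ) - L ∧ (p : ℤ) - L ≤ L) ∧
        (-(L : ℤ) ≤ 2 * (k : ℤ) + ((p % 2 : ℕ) : ℤ) - L ∧
          2 * (k : ℤ) + ((p % 2 : ℕ) : ℤ) - L ≤ L)) ∧
        (((p : ℤ) - L) + (2 * (k : ℤ) + ((p % 2 : ℕ) : ℤ) - L)) % 2 = 0
      omega
    · rintro ⟨p, k⟩ _ ⟨p', k'⟩ _ h
      have h0 : (p : ℤ) - L = (p' : ℤ) - L := congrFun h 0
      have h1 : 2 * (k : ℤ) + ((p % 2 : ℕ) : ℤ) - L = 2 * (k' : ℤ) + ((p' % 2 : ℕ) : ℤ) - L :=
        congrFun h 1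
      have hp : p = p' := by omega
      subst hp
      have hk : k = k' := by omega
      rw [hk]
  rw [Finset.card_product, Finset.card_range, Finset.card_range] at h1
  calc 2 * L ^ 2 = 2 * L * L := by ring
    _ ≤ F.card := h1

theorem nbr (L : ℕ) (x : Fin 2 → ℤ) (hx : x ∈ box L) (y : Fin 2 → ℤ)
    (h : (lattice 2).Adj x y) : y ∈ box L ∨ y ∈ box (L + 1) \ box L := by
  by_cases hy : y ∈ box L
  · exact Or.inl hy
  · refine Or.inr (Finset.mem_sdiff.2 ⟨?_, hy⟩)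
    have hn := near x y h
    rw [mem_box] at hx ⊢
    push_cast
    omega

end COUNT_

open COUNT_ in
theorem p_COUNT : T_COUNT :=
  ⟨bip, fin, card_box, box_mono, even_card, nbr⟩

end Pool.Agent.TRP
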