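import Pool.Agent.TRP.T1

/-! # TRP-DELTA: the discrete gradient -/

set_option autoImplicit false

noncomputable section

namespace Pool.Agent.TRP

open Classical in
/-- the first vertex set of `DD` -/
def DELTA_A {V : Type} [DecidableEq V] (P : V → Prop) (B X : Finset V) (O : Set V) : Finset V :=
  B.filter (· ∈ O) ∪ X.filter P

theorem DELTA_mem {V : Type} [DecidableEq V] (P : V → Prop) (B X : Finset V) (O : Set V) (y : V) :
    y ∈ DELTA_A P B X O ↔ (y ∈ B ∧ y ∈ O) ∨ (y ∈ X ∧ P y) := by
  classical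
  unfold DELTA_A
  rw [Finset.mem_union, Finset.mem_filter, Finset.mem_filter]

theorem DELTA_dd {V : Type} [DecidableEq V] (G : SimpleGraph V) (P : V → Prop) (B X : Finset V)
    (O : Set V) : DD G P B X O =
      (nu G P (DELTA_A P B X O) : ℝ) - nu G P (DELTA_A (fun y => ¬ P y) B X O) := by
  unfold DD
  refine congrArg₂ (fun a b : Finset V => (nu G P a : ℝ) - nu G P b) ?_ ?_
  · ext y
    simp only [DELTA_mem, Finset.mem_union, Finset.mem_filter]
  · ext y
    simp only [DELTA_mem, Finset.mem_union, Finset.mem_filter]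

theorem DELTA_erase {V : Type} [DecidableEq V] (P : V → Prop) (B X : Finset V) (O : Set V)
    (x : V) (hx : x ∉ X) : DELTA_A P B X (O \ {x}) = (DELTA_A P B X O).erase x := by
  ext y
  rw [DELTA_mem, Finset.mem_erase, DELTA_mem]
  constructor
  · rintro (⟨h1, h2, h3⟩ | ⟨h1, h2⟩)
    · exact ⟨h3, Or.inl ⟨h1, h2⟩⟩
    · refine ⟨?_, Or.inr ⟨h1, h2⟩⟩
      rintro rfl
      exact hx h1
  · rintro ⟨h0, (⟨h1, h2⟩ | ⟨h1, h2⟩)⟩
    · exact Or.inl ⟨h1, h2, h0⟩
    · exact Or.inr ⟨h1, h2⟩

theorem DELTA_card {V : Type} [DecidableEq V] (P : V → Prop) (B X : Finset V) (O : Set V)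
    (N : ℕ) (h : (B ∪ X).card ≤ N) : (DELTA_A P B X O).card ≤ N := by
  refine (Finset.card_le_card ?_).trans h
  intro y hy
  rw [DELTA_mem] at hy
  rw [Finset.mem_union]
  rcases hy with h1 | h1
  · exact Or.inl h1.1
  · exact Or.inr h1.1

theorem p_DELTA (h_GAME : T_GAME) (h_MONO : T_MONO) (h_NU1 : T_NU1) : T_DELTA := by
  intro V _ G P hP B X hBX hnb O x N hxB hxO hPx hN
  have hxX : x ∉ X := fun h => (Finset.disjoint_left.1 hBX hxB) h
  have hQ : Bip G (fun y => ¬ P y) := by
    intro a b hab
    have := hP a b hab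
    constructor
    · intro h1 h2
      exact h2 (by
        by_contra h3
        exact h1 (this.2 h3))
    · intro h1 h2
      exact h1 (this.1 h2)
  set SA := DELTA_A P B X O with hSA
  set SB := DELTA_A (fun y => ¬ P y) B X O with hSB
  have hxR : x ∈ ({x} : Finset V) := Finset.mem_singleton_self x
  -- the first vertex set
  have hA : nu G P (SA.erase x) < nu G P SA → Win (brd G O) N {x} x := by
    intro hess
    refine (h_GAME V G P (fun y => ¬ P y) O hP hQ N SA {x} x (DELTA_card P B X O N hN) ?_ hxR hxO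
      ?_ ?_).1 (fun h => h hPx) hess
    · rw [hSA, DELTA_mem]
      exact Or.inl ⟨hxB, hxO⟩
    · intro y hy hyx hQy
      rw [hSA, DELTA_mem] at hy
      rcases hy with h1 | h1
      · exact ⟨h1.2, fun h => hyx (Finset.mem_singleton.1 h)⟩
      · exact absurd h1.2 hQy
    · intro y hy hQy z hyz hzO hzR
      rw [hSA, DELTA_mem] at hy
      rw [hSA, DELTA_mem]
      rcases hy with h1 | h1
      · rcases hnb y h1.1 z hyz with h2 | h2
        · exact Or.inl ⟨h2, hzO⟩
        · refine Or.inr ⟨h2, ?_⟩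
          by_contra h3
          exact hQy ((hP y z hyz).2 h3)
      · exact absurd h1.2 hQy
  have hB : ¬ nu G P (SB.erase x) < nu G P SB → Lose (brd G O) N {x} x := by
    intro hess
    refine (h_GAME V G P P O hP hP N SB {x} x (DELTA_card _ B X O N hN) ?_ hxR hxO
      ?_ ?_).2 hPx hess
    · rw [hSB, DELTA_mem]
      exact Or.inl ⟨hxB, hxO⟩
    · intro y hy hyx hQy
      rw [hSB, DELTA_mem] at hy
      rcases hy with h1 | h1
      · exact ⟨h1.2, fun h => hyx (Finset.mem_singleton.1 h)⟩
      · exact absurd hQy h1.2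
    · intro y hy hQy z hyz hzO hzR
      rw [hSB, DELTA_mem] at hy
      rw [hSB, DELTA_mem]
      rcases hy with h1 | h1
      · rcases hnb y h1.1 z hyz with h2 | h2
        · exact Or.inl ⟨h2, hzO⟩
        · exact Or.inr ⟨h2, (hP y z hyz).1 hQy⟩
      · exact absurd hQy h1.2
  have hex := (h_MONO V (brd G O)).2.2 N N {x} x
  obtain ⟨hmono, hsub⟩ := h_NU1 V G P hP
  have step : ∀ S : Finset V, nu G P (S.erase x) ≤ nu G P S ∧
      nu G P S ≤ nu G P (S.erase x) + 1 := by
    intro S
    refine ⟨hmono _ _ (Finset.erase_subset x S), ?_⟩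
    have h1 : nu G P S ≤ nu G P (S.erase x ∪ {x}) := by
      refine hmono _ _ ?_
      intro y hy
      rw [Finset.mem_union, Finset.mem_erase, Finset.mem_singleton]
      by_cases h : y = x
      · exact Or.inr h
      · exact Or.inl ⟨h, hy⟩
    have h2 := hsub (S.erase x) {x}
    rw [Finset.card_singleton] at h2
    exact h1.trans h2
  have hSA1 := step SA
  have hSB1 := step SB
  rw [DELTA_dd, DELTA_dd, DELTA_erase P B X O x hxX, DELTA_erase _ B X O x hxX, ← hSA, ← hSB]
  constructor
  · have key : nu G P SA + nu G P (SB.erase x) ≤ nu G P (SA.erase x) + nu G P SB := by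
      by_cases h1 : nu G P (SA.erase x) < nu G P SA
      · by_cases h2 : nu G P (SB.erase x) < nu G P SB
        · omega
        · exact absurd ⟨hA h1, hB h2⟩ hex
      · omega
    have key' : (nu G P SA : ℝ) + nu G P (SB.erase x) ≤ nu G P (SA.erase x) + nu G P SB := by
      exact_mod_cast key
    linarith
  · intro hw hl
    have h1 : ¬ nu G P (SA.erase x) < nu G P SA := fun h => hw (hA h)
    have h2 : nu G P (SB.erase x) < nu G P SB := by
      by_contra h
      exact hl (hB h)
    have key : nu G P SA + nu G P (SB.erase x) + 1 ≤ nu G P (SA.erase x) + nu G P SB := by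
      omega
    have key' : (nu G P SA : ℝ) + nu G P (SB.erase x) + 1 ≤
        nu G P (SA.erase x) + nu G P SB := by
      exact_mod_cast key
    linarith

end Pool.Agent.TRP
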