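import Pool.Agent.TRP.T1

/-!
# Trap: target DER (Russo's formula for the tilted expectation)
-/

set_option autoImplicit false

open MeasureTheory

noncomputable section

namespace Pool.Agent.TRP

namespace DER_

variable {V : Type} [DecidableEq V]

/-- the product without the site `x` -/
def RR (a : ℝ) (B : Finset V) (x : V) (t : ℝ) (ω : V → Bool) : ℝ :=
  ∏ y ∈ B.erase x, (1 + t * sc a (ω y))

lemma sc_bd {a : ℝ} (h0 : 0 < a) (h1 : a < 1) (b : Bool) :
    |sc a b| ≤ 1 / a + 1 / (1 - a) := by
  have h2 : 0 < 1 - a := by linarith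
  have e1 : 0 < 1 / a := by positivity
  have e2 : 0 < 1 / (1 - a) := by positivity
  unfold sc
  split_ifs
  · rw [abs_of_pos e1]
    linarith
  · rw [abs_neg, abs_of_pos e2]
    linarith

lemma sc_meas (a : ℝ) (x : V) : Measurable (fun ω : V → Bool => sc a (ω x)) :=
  (measurable_of_countable (sc a)).comp (measurable_pi_apply x)

lemma hh_meas (a : ℝ) (B : Finset V) (t : ℝ) : Measurable (hh (V := V) a B t) := by
  unfold hh
  exact Finset.measurable_prod B fun x _ => ((sc_meas a x).const_mul t).const_add 1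

lemma RR_meas (a : ℝ) (B : Finset V) (x : V) (t : ℝ) : Measurable (RR a B x t) := by
  unfold RR
  exact Finset.measurable_prod _ fun x _ => ((sc_meas a x).const_mul t).const_add 1

lemma fac_bd {a : ℝ} (h0 : 0 < a) (h1 : a < 1) (t s : ℝ) (hs : |s| ≤ |t| + 1) (b : Bool) :
    |1 + s * sc a b| ≤ 1 + (|t| + 1) * (1 / a + 1 / (1 - a)) := by
  calc |1 + s * sc a b| ≤ |(1 : ℝ)| + |s * sc a b| := abs_add_le _ _
    _ = 1 + |s| * |sc a b| := by rw [abs_one, abs_mul]
    _ ≤ 1 + (|t| + 1) * (1 / a + 1 / (1 - a)) := by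
      have := sc_bd h0 h1 b
      gcongr

lemma K_ge {a : ℝ} (h0 : 0 < a) (h1 : a < 1) (t : ℝ) :
    1 ≤ 1 + (|t| + 1) * (1 / a + 1 / (1 - a)) := by
  have h2 : 0 < 1 - a := by linarith
  have : 0 ≤ (|t| + 1) * (1 / a + 1 / (1 - a)) := by positivity
  linarith

lemma prod_bd {a : ℝ} (h0 : 0 < a) (h1 : a < 1) (t s : ℝ) (hs : |s| ≤ |t| + 1)
    (S B : Finset V) (hS : S ⊆ B) (ω : V → Bool) :
    |∏ y ∈ S, (1 + s * sc a (ω y))| ≤ (1 + (|t| + 1) * (1 / a + 1 / (1 - a))) ^ B.card := by
  rw [Finset.abs_prod]
  calc ∏ y ∈ S, |1 + s * sc a (ω y)| ≤ ∏ y ∈ S, (1 + (|t| + 1) * (1 / a + 1 / (1 - a))) :=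
        Finset.prod_le_prod (fun _ _ => abs_nonneg _) fun y _ => fac_bd h0 h1 t s hs _
    _ = (1 + (|t| + 1) * (1 / a + 1 / (1 - a))) ^ S.card := by rw [Finset.prod_const]
    _ ≤ (1 + (|t| + 1) * (1 / a + 1 / (1 - a))) ^ B.card :=
        pow_le_pow_right₀ (K_ge h0 h1 t) (Finset.card_le_card hS)

lemma RR_upd (a : ℝ) (B : Finset V) (x : V) (t : ℝ) (ω : V → Bool) (b : Bool) :
    RR a B x t (Function.update ω x b) = RR a B x t ω := by
  unfold RR
  refine Finset.prod_congr rfl fun y hy => ?_
  rw [Function.update_of_ne (Finset.ne_of_mem_erase hy)]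

lemma hh_eq (a : ℝ) {B : Finset V} {x : V} (hx : x ∈ B) (t : ℝ) (ω : V → Bool) :
    hh a B t ω = (1 + t * sc a (ω x)) * RR a B x t ω := by
  unfold hh RR
  exact (Finset.mul_prod_erase B (fun x => 1 + t * sc a (ω x)) hx).symm

lemma upd_meas (x : V) (b : Bool) {f : (V → Bool) → ℝ} (hf : Measurable f) :
    Measurable (fun ω : V → Bool => f (Function.update ω x b)) :=
  hf.comp measurable_update_left

end DER_

open DER_ in
theorem p_DER (h_RES : T_RES) : T_DER := by
  intro V _ q hq a ha0 ha1 B hB f C hf hC t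
  obtain ⟨hprob, hres⟩ := h_RES V q hq
  have ha2 : 0 < 1 - a := by linarith
  have hC0 : 0 ≤ C := (abs_nonneg _).trans (hC (fun _ => true))
  set M : ℝ := 1 / a + 1 / (1 - a) with hM
  set K : ℝ := 1 + (|t| + 1) * M with hK
  have hK1 : 1 ≤ K := K_ge ha0 ha1 t
  have hM0 : 0 ≤ M := by positivity
  -- pointwise derivative
  have hpt : ∀ (ω : V → Bool) (s : ℝ), HasDerivAt (fun s => f ω * hh a B s ω)
      (f ω * ∑ x ∈ B, RR a B x s ω * sc a (ω x)) s := by
    intro ω s
    have h1 : HasDerivAt (fun s => hh a B s ω) (∑ x ∈ B, RR a B x s ω * sc a (ω x)) s := by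
      have h2 : ∀ x ∈ B, HasDerivAt (fun s : ℝ => 1 + s * sc a (ω x)) (sc a (ω x)) s := by
        intro x _
        have h3 := ((hasDerivAt_id s).mul_const (sc a (ω x))).const_add 1
        simpa using h3
      have h4 := HasDerivAt.fun_finsetProd (u := B) h2
      exact h4
    exact h1.const_mul (f ω)
  have hsball : ∀ s ∈ Metric.ball t 1, |s| ≤ |t| + 1 := by
    intro s hs
    rw [Metric.mem_ball, Real.dist_eq] at hs
    have := abs_sub_abs_le_abs_sub s t
    linarith
  have key := hasDerivAt_integral_of_dominated_loc_of_deriv_le (μ := law q)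
    (F := fun (s : ℝ) (ω : V → Bool) => f ω * hh a B s ω)
    (F' := fun (s : ℝ) (ω : V → Bool) => f ω * ∑ x ∈ B, RR a B x s ω * sc a (ω x))
    (x₀ := t) (s := Metric.ball t 1)
    (bound := fun _ => C * ∑ x ∈ B, K ^ B.card * M)
    (Metric.ball_mem_nhds t one_pos)
    (Filter.Eventually.of_forall fun s => (hf.mul (hh_meas a B s)).aestronglyMeasurable)
    (by
      refine Integrable.of_bound (hf.mul (hh_meas a B t)).aestronglyMeasurable
        (C * K ^ B.card) (Filter.Eventually.of_forall fun ω => ?_)
      rw [Real.norm_eq_abs, abs_mul]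
      exact mul_le_mul (hC ω) (prod_bd ha0 ha1 t t (by linarith) B B (Finset.Subset.refl _) ω)
        (abs_nonneg _) hC0)
    ((hf.mul (Finset.measurable_sum _ fun x _ =>
      (RR_meas a B x t).mul (sc_meas a x))).aestronglyMeasurable)
    (Filter.Eventually.of_forall fun ω s hs => by
      rw [Real.norm_eq_abs, abs_mul]
      refine mul_le_mul (hC ω) ?_ (abs_nonneg _) hC0
      refine (Finset.abs_sum_le_sum_abs _ _).trans (Finset.sum_le_sum fun x _ => ?_)
      rw [abs_mul]
      exact mul_le_mul (prod_bd ha0 ha1 t s (hsball s hs) _ B (Finset.erase_subset x B) ω)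
        (sc_bd ha0 ha1 _) (abs_nonneg _) (by positivity))
    (integrable_const _)
    (Filter.Eventually.of_forall fun ω s _ => hpt ω s)
  refine key.2.congr_deriv ?_
  have hint : ∀ x ∈ B, Integrable (fun ω => f ω * (RR a B x t ω * sc a (ω x))) (law q) := by
    intro x _
    refine Integrable.of_bound
      (hf.mul ((RR_meas a B x t).mul (sc_meas a x))).aestronglyMeasurable
      (C * (K ^ B.card * M)) (Filter.Eventually.of_forall fun ω => ?_)
    rw [Real.norm_eq_abs, abs_mul, abs_mul]
    exact mul_le_mul (hC ω) (mul_le_mul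
      (prod_bd ha0 ha1 t t (by linarith) _ B (Finset.erase_subset x B) ω)
      (sc_bd ha0 ha1 _) (abs_nonneg _) (by positivity)) (by positivity) hC0
  simp only [Finset.mul_sum]
  rw [integral_finsetSum _ hint]
  refine Finset.sum_congr rfl fun x hx => ?_
  -- the first function
  have hu := upd_meas x true hf
  have hu' := upd_meas x false hf
  have r1 := hres (fun ω => f ω * (RR a B x t ω * sc a (ω x))) (C * (K ^ B.card * M))
    (hf.mul ((RR_meas a B x t).mul (sc_meas a x))) (fun ω => by
      rw [abs_mul, abs_mul]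
      exact mul_le_mul (hC ω) (mul_le_mul
        (prod_bd ha0 ha1 t t (by linarith) _ B (Finset.erase_subset x B) ω)
        (sc_bd ha0 ha1 _) (abs_nonneg _) (by positivity)) (by positivity) hC0) x
  have r2 := hres (fun ω => (f (Function.update ω x true) - f (Function.update ω x false)) *
    hh a B t ω) ((C + C) * K ^ B.card) ((hu.sub hu').mul (hh_meas a B t)) (fun ω => by
      rw [abs_mul]
      refine mul_le_mul ((abs_sub _ _).trans (add_le_add (hC _) (hC _)))
        (prod_bd ha0 ha1 t t (by linarith) B B (Finset.Subset.refl _) ω)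
        (abs_nonneg _) (by positivity)) x
  rw [r1, r2]
  refine integral_congr_ae (Filter.Eventually.of_forall fun ω => ?_)
  show q x * (f (Function.update ω x true) * (RR a B x t (Function.update ω x true) *
      sc a (Function.update ω x true x))) +
      (1 - q x) * (f (Function.update ω x false) * (RR a B x t (Function.update ω x false) *
      sc a (Function.update ω x false x))) =
    q x * ((f (Function.update (Function.update ω x true) x true) -
      f (Function.update (Function.update ω x true) x false)) *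
      hh a B t (Function.update ω x true)) +
    (1 - q x) * ((f (Function.update (Function.update ω x false) x true) -
      f (Function.update (Function.update ω x false) x false)) *
      hh a B t (Function.update ω x false))
  rw [hh_eq a hx, hh_eq a hx]
  simp only [RR_upd, Function.update_self, Function.update_idem]
  rw [hB x hx]
  have s1 : sc a true = 1 / a := by simp [sc]
  have s2 : sc a false = -(1 / (1 - a)) := by simp [sc]
  rw [s1, s2]
  have h3 : a ≠ 0 := ha0.ne'
  have h4 : 1 - a ≠ 0 := ha2.ne'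
  field_simp
  ring

end Pool.Agent.TRP
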