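import Pool.Agent.TRP.T1

/-!
# TRP: LOC, the truncated game depends on finitely many sites (helper11)
-/

set_option autoImplicit false

noncomputable section

namespace Pool.Agent.TRP

namespace LOC_

variable {V : Type} [DecidableEq V] {G : SimpleGraph V}

/-- one step of the locality -/
lemma step (h : ∀ x, {y | G.Adj x y}.Finite) (n : ℕ)
    (ih : ∀ (S : Finset V) (x : V), ∃ F : Finset V, ∀ O O' : Set V,
      (∀ y ∈ F, (y ∈ O ↔ y ∈ O')) → Win (brd G O) n S x → Win (brd G O') n S x)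
    (S : Finset V) (x : V) :
    ∃ F : Finset V, ∀ O O' : Set V, (∀ y ∈ F, (y ∈ O ↔ y ∈ O')) →
      (∀ y, Legal (brd G O') S x y → Legal (brd G O) S x y) ∧
      (∀ y, Legal (brd G O) S x y → Legal (brd G O') S x y ∧
        (Win (brd G O) n (insert y S) y → Win (brd G O') n (insert y S) y)) := by
  choose Fn hFn using ih
  refine ⟨insert x ((h x).toFinset ∪ (h x).toFinset.biUnion fun y => Fn (insert y S) y), ?_⟩
  intro O O' hO
  have hx : x ∈ O ↔ x ∈ O' := hO x (Finset.mem_insert_self _ _)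
  have hN : ∀ y, G.Adj x y → (y ∈ O ↔ y ∈ O') := fun y hy => hO y
    (Finset.mem_insert_of_mem (Finset.mem_union_left _ ((h x).mem_toFinset.2 hy)))
  refine ⟨?_, ?_⟩
  · rintro y ⟨⟨h1, h2, h3⟩, h4⟩
    exact ⟨⟨h1, hx.2 h2, (hN y h1).2 h3⟩, h4⟩
  · rintro y ⟨⟨h1, h2, h3⟩, h4⟩
    refine ⟨⟨⟨h1, hx.1 h2, (hN y h1).1 h3⟩, h4⟩, ?_⟩
    refine hFn (insert y S) y O O' fun w hw => hO w ?_
    refine Finset.mem_insert_of_mem (Finset.mem_union_right _ ?_)
    exact Finset.mem_biUnion.2 ⟨y, (h x).mem_toFinset.2 h1, hw⟩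

lemma win_loc (h : ∀ x, {y | G.Adj x y}.Finite) (n : ℕ) :
    ∀ (S : Finset V) (x : V), ∃ F : Finset V, ∀ O O' : Set V,
      (∀ y ∈ F, (y ∈ O ↔ y ∈ O')) → Win (brd G O) n S x → Win (brd G O') n S x := by
  induction n with
  | zero => exact fun S x => ⟨∅, fun O O' _ hw => absurd hw (by simp [Win])⟩
  | succ n ih =>
    intro S x
    choose Fn hFn using step h n ih
    refine ⟨insert x ((h x).toFinset ∪ (h x).toFinset.biUnion fun y => Fn (insert y S) y), ?_⟩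
    intro O O' hO hw
    have hx : x ∈ O ↔ x ∈ O' := hO x (Finset.mem_insert_self _ _)
    have hN : ∀ y, G.Adj x y → (y ∈ O ↔ y ∈ O') := fun y hy => hO y
      (Finset.mem_insert_of_mem (Finset.mem_union_left _ ((h x).mem_toFinset.2 hy)))
    obtain ⟨y, ⟨⟨h1, h2, h3⟩, h4⟩, h5⟩ := hw
    have hF : ∀ w ∈ Fn (insert y S) y, (w ∈ O ↔ w ∈ O') := fun w hw => hO w
      (Finset.mem_insert_of_mem (Finset.mem_union_right _
        (Finset.mem_biUnion.2 ⟨y, (h x).mem_toFinset.2 h1, hw⟩)))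
    obtain ⟨h6, h7⟩ := hFn (insert y S) y O O' hF
    refine ⟨y, ⟨⟨h1, hx.1 h2, (hN y h1).1 h3⟩, h4⟩, ?_⟩
    intro z hz
    have h8 := h6 z hz
    exact (h7 z h8).2 (h5 z h8)

end LOC_

open LOC_ in
theorem p_LOC : T_LOC := by
  intro V _ G h n x
  obtain ⟨F1, hF1⟩ := win_loc h n {x} x
  obtain ⟨F2, hF2⟩ := step h n (win_loc h n) {x} x
  refine ⟨F1 ∪ F2, ?_⟩
  have key : ∀ ω ω' : V → Bool, (∀ y ∈ F1 ∪ F2, ω y = ω' y) → ω ∈ Und G n x → ω' ∈ Und G n x := by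
    intro ω ω' hω hU
    have hO : ∀ y ∈ F1 ∪ F2, (y ∈ opn ω' x ↔ y ∈ opn ω x) := by
      intro y hy
      show (ω' y = false ∨ y = x) ↔ (ω y = false ∨ y = x)
      rw [hω y hy]
    refine ⟨fun hw => hU.1 ?_, fun hl => hU.2 ?_⟩
    · exact hF1 _ _ (fun y hy => hO y (Finset.mem_union_left _ hy)) hw
    · obtain ⟨h1, h2⟩ := hF2 (opn ω' x) (opn ω x) fun y hy => hO y (Finset.mem_union_right _ hy)
      intro y hy
      have h3 := h1 y hy
      exact (h2 y h3).2 (hl y h3)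
  intro ω ω' hω
  exact ⟨key ω ω' hω, key ω' ω fun y hy => (hω y hy).symm⟩

end Pool.Agent.TRP
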