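import Pool.Agent.TRP.T1

/-!
# TRP: MEAS, measurability of the truncated game (helper75)
-/

set_option autoImplicit false
set_option linter.unusedSectionVars false

open MeasureTheory

noncomputable section

namespace Pool.Agent.TRP

namespace MEAS_

variable {V : Type} [DecidableEq V] {G : SimpleGraph V}

lemma mem_opn (x y : V) : MeasurableSet {ω : V → Bool | y ∈ opn ω x} := by
  have h : {ω : V → Bool | y ∈ opn ω x} = (fun ω : V → Bool => ω y) ⁻¹' {false} ∪
      {_ω : V → Bool | y = x} := rfl
  rw [h]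
  exact ((measurable_pi_apply y) (measurableSet_singleton false)).union (MeasurableSet.const _)

lemma legal (x : V) (S : Finset V) (y z : V) :
    MeasurableSet {ω : V → Bool | Legal (brd G (opn ω x)) S y z} := by
  have h : {ω : V → Bool | Legal (brd G (opn ω x)) S y z} =
      ({_ω : V → Bool | G.Adj y z ∧ z ∉ S} ∩ {ω | y ∈ opn ω x}) ∩ {ω | z ∈ opn ω x} := by
    ext ω
    constructor
    · rintro ⟨⟨h1, h2, h3⟩, h4⟩
      exact ⟨⟨⟨h1, h4⟩, h2⟩, h3⟩
    · rintro ⟨⟨⟨h1, h4⟩, h2⟩, h3⟩
      exact ⟨⟨h1, h2, h3⟩, h4⟩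
  rw [h]
  exact ((MeasurableSet.const _).inter (mem_opn x y)).inter (mem_opn x z)

lemma imp {p q : (V → Bool) → Prop} (hp : MeasurableSet {ω | p ω}) (hq : MeasurableSet {ω | q ω}) :
    MeasurableSet {ω | p ω → q ω} := by
  have h : {ω | p ω → q ω} = {ω | p ω}ᶜ ∪ {ω | q ω} := by
    ext ω
    simp only [Set.mem_ofPred_eq, Set.mem_union, Set.mem_compl_iff]
    tauto
  rw [h]
  exact hp.compl.union hq

lemma all [Countable V] {p : V → (V → Bool) → Prop} (hp : ∀ y, MeasurableSet {ω | p y ω}) :
    MeasurableSet {ω | ∀ y, p y ω} := by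
  rw [Set.ofPred_forall]
  exact MeasurableSet.iInter hp

lemma ex [Countable V] {p : V → (V → Bool) → Prop} (hp : ∀ y, MeasurableSet {ω | p y ω}) :
    MeasurableSet {ω | ∃ y, p y ω} := by
  rw [Set.ofPred_exists]
  exact MeasurableSet.iUnion hp

lemma win [Countable V] (x : V) (n : ℕ) : ∀ (S : Finset V) (y : V),
    MeasurableSet {ω : V → Bool | Win (brd G (opn ω x)) n S y} := by
  induction n with
  | zero => exact fun S y => MeasurableSet.const False
  | succ n ih =>
    intro S y
    exact ex fun z => (legal x S y z).inter (all fun w => imp (legal x _ z w) (ih _ w))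

lemma lose [Countable V] (x : V) (n : ℕ) (S : Finset V) (y : V) :
    MeasurableSet {ω : V → Bool | Lose (brd G (opn ω x)) n S y} :=
  all fun z => imp (legal x S y z) (win x n _ z)

end MEAS_

open MEAS_ in
theorem p_MEAS : T_MEAS := by
  intro V _ _ G n x
  exact (win x n {x} x).compl.inter (lose x n {x} x).compl

end Pool.Agent.TRP
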