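import Pool.Agent.TRP.T1

/-!
# Trap on site percolation: facts on the density `hh`

The target `T_PROD`, from `T_RES`.
-/

set_option autoImplicit false

open MeasureTheory

noncomputable section

namespace Pool.Agent.TRP

namespace PROD_

/-- Integrating out one site. -/
theorem one (h : T_RES) {V : Type} [DecidableEq V] (q : V → ℝ)
    (hq : ∀ x, 0 ≤ q x ∧ q x ≤ 1) (φ : (V → Bool) → ℝ) (C : ℝ) (hm : Measurable φ)
    (hC : ∀ ω, |φ ω| ≤ C) (y : V) (hy : ∀ ω b, φ (Function.update ω y b) = φ ω)
    (g : Bool → ℝ) :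
    ∫ ω, φ ω * g (ω y) ∂(law q) =
      (∫ ω, φ ω ∂(law q)) * (q y * g true + (1 - q y) * g false) := by
  have hgm : Measurable fun ω : V → Bool => g (ω y) :=
    (measurable_of_countable g).comp (measurable_pi_apply y)
  have hb : ∀ ω : V → Bool, |φ ω * g (ω y)| ≤ C * (|g true| + |g false|) := by
    intro ω
    rw [abs_mul]
    have h0 : 0 ≤ C := (abs_nonneg _).trans (hC ω)
    refine mul_le_mul (hC ω) ?_ (abs_nonneg _) h0
    cases ω y
    · linarith [abs_nonneg (g true)]
    · linarith [abs_nonneg (g false)]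
  rw [(h V q hq).2 (fun ω => φ ω * g (ω y)) _ (hm.mul hgm) hb y, ← integral_mul_const]
  congr 1
  funext ω
  simp only [hy, Function.update_self]
  ring

/-- The product of functions of the single sites is bounded. -/
theorem bdd {V : Type} (g : Bool → ℝ) (B : Finset V) (ω : V → Bool) :
    |∏ x ∈ B, g (ω x)| ≤ (|g true| + |g false|) ^ B.card := by
  rw [Finset.abs_prod, ← Finset.prod_const]
  refine Finset.prod_le_prod (fun _ _ => abs_nonneg _) fun x _ => ?_
  cases ω x
  · linarith [abs_nonneg (g true)]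
  · linarith [abs_nonneg (g false)]

/-- The product of functions of the single sites is measurable. -/
theorem meas {V : Type} (g : Bool → ℝ) (B : Finset V) :
    Measurable fun ω : V → Bool => ∏ x ∈ B, g (ω x) :=
  Finset.measurable_prod B fun x _ => (measurable_of_countable g).comp (measurable_pi_apply x)

/-- Integrating out the sites of `B`. -/
theorem many (h : T_RES) {V : Type} [DecidableEq V] (q : V → ℝ)
    (hq : ∀ x, 0 ≤ q x ∧ q x ≤ 1) (φ : (V → Bool) → ℝ) (C : ℝ) (hm : Measurable φ)
    (hC : ∀ ω, |φ ω| ≤ C) (a : ℝ) (g : Bool → ℝ) (B : Finset V) (hB : ∀ x ∈ B, q x = a)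
    (hφ : ∀ y ∈ B, ∀ ω b, φ (Function.update ω y b) = φ ω) :
    ∫ ω, φ ω * ∏ x ∈ B, g (ω x) ∂(law q) =
      (∫ ω, φ ω ∂(law q)) * (a * g true + (1 - a) * g false) ^ B.card := by
  induction B using Finset.induction_on with
  | empty => simp
  | insert y B hy ih =>
    have hC0 : 0 ≤ C := (abs_nonneg _).trans (hC fun _ => true)
    have e1 : ∀ ω : V → Bool, φ ω * ∏ x ∈ insert y B, g (ω x) =
        (φ ω * ∏ x ∈ B, g (ω x)) * g (ω y) := by
      intro ω
      rw [Finset.prod_insert hy]
      ring
    simp only [e1]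
    rw [one h q hq (fun ω => φ ω * ∏ x ∈ B, g (ω x)) (C * (|g true| + |g false|) ^ B.card)
      (hm.mul (meas g B)) ?_ y ?_ g]
    · rw [ih (fun x hx => hB x (Finset.mem_insert_of_mem hx))
        (fun x hx => hφ x (Finset.mem_insert_of_mem hx)),
        hB y (Finset.mem_insert_self y B), Finset.card_insert_of_notMem hy]
      ring
    · intro ω
      rw [abs_mul]
      exact mul_le_mul (hC ω) (bdd g B ω) (abs_nonneg _) hC0
    · intro ω b
      rw [hφ y (Finset.mem_insert_self y B) ω b]
      congr 1
      refine Finset.prod_congr rfl fun x hx => ?_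
      rw [Function.update_of_ne]
      rintro rfl
      exact hy hx

/-- Bounded measurable functions are integrable. -/
theorem intg (h : T_RES) {V : Type} [DecidableEq V] (q : V → ℝ)
    (hq : ∀ x, 0 ≤ q x ∧ q x ≤ 1) (φ : (V → Bool) → ℝ) (C : ℝ) (hm : Measurable φ)
    (hC : ∀ ω, |φ ω| ≤ C) : Integrable φ (law q) := by
  have := (h V q hq).1
  exact Integrable.of_bound hm.aestronglyMeasurable C
    (Filter.Eventually.of_forall fun ω => by simpa [Real.norm_eq_abs] using hC ω)

end PROD_

open PROD_ in
theorem p_PROD (h : T_RES) : T_PROD := by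
  intro V _ q hq a ha ha1 B hB
  have ha1' : 0 < 1 - a := by linarith
  have := (h V q hq).1
  refine ⟨?_, ?_, ?_, ?_⟩
  · -- positivity
    intro t ω h1 h2
    refine Finset.prod_pos fun x _ => ?_
    obtain ⟨h1a, h1b⟩ := abs_lt.mp h1
    obtain ⟨h2a, h2b⟩ := abs_lt.mp h2
    unfold sc
    cases ω x
    · simp only [Bool.false_eq_true, if_false]
      have : t * (1 / (1 - a)) < 1 := by
        rw [mul_one_div, div_lt_one ha1']
        exact h2b
      linarith
    · simp only [if_true]
      have : -1 < t * (1 / a) := by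
        rw [mul_one_div, lt_div_iff₀ ha]
        linarith
      linarith
  · -- the integral is one
    intro t
    have e := many h q hq (fun _ => (1 : ℝ)) 1 measurable_const (by simp) a
      (fun b => 1 + t * sc a b) B hB (by simp)
    simp only [one_mul] at e
    unfold hh
    rw [e]
    have : a * (1 + t * sc a true) + (1 - a) * (1 + t * sc a false) = 1 := by
      simp only [sc, if_true, Bool.false_eq_true, if_false]
      field_simp
      ring
    rw [this]
    simp
  · -- the second moment
    intro t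
    have e := many h q hq (fun _ => (1 : ℝ)) 1 measurable_const (by simp) a
      (fun b => (1 + t * sc a b) ^ 2) B hB (by simp)
    simp only [one_mul] at e
    have e0 : ∀ ω : V → Bool, hh a B t ω ^ 2 = ∏ x ∈ B, (1 + t * sc a (ω x)) ^ 2 := by
      intro ω
      unfold hh
      rw [Finset.prod_pow]
    simp only [e0]
    rw [e]
    have e1 : a * (1 + t * sc a true) ^ 2 + (1 - a) * (1 + t * sc a false) ^ 2 =
        t ^ 2 / (a * (1 - a)) + 1 := by
      simp only [sc, if_true, Bool.false_eq_true, if_false]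
      field_simp
      ring
    rw [e1]
    have e2 : t ^ 2 / (a * (1 - a)) + 1 ≤ Real.exp (t ^ 2 / (a * (1 - a))) :=
      Real.add_one_le_exp _
    have e3 : 0 ≤ t ^ 2 / (a * (1 - a)) + 1 := by positivity
    calc (∫ _ : V → Bool, (1 : ℝ) ∂(law q)) * (t ^ 2 / (a * (1 - a)) + 1) ^ B.card
        = (t ^ 2 / (a * (1 - a)) + 1) ^ B.card := by simp
      _ ≤ Real.exp (t ^ 2 / (a * (1 - a))) ^ B.card := pow_le_pow_left₀ e3 e2 _
      _ = Real.exp (t ^ 2 / (a * (1 - a)) * B.card) := by
          rw [← Real.exp_nat_mul]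
          congr 1
          ring
  · -- the lower bound
    intro φ F hm h01 hF M t hM1 hM2 ht hMt
    have hCφ : ∀ ω, |φ ω| ≤ 1 := fun ω => by
      rw [abs_of_nonneg (h01 ω).1]
      exact (h01 ω).2
    have hupd : ∀ y, y ∉ F → ∀ ω b, φ (Function.update ω y b) = φ ω := by
      intro y hy ω b
      refine hF _ _ fun z hz => ?_
      rw [Function.update_of_ne]
      rintro rfl
      exact hy hz
    have hsplit : ∀ ω : V → Bool, φ ω * hh a B t ω =
        (φ ω * ∏ x ∈ B ∩ F, (1 + t * sc a (ω x))) * ∏ x ∈ B \ F, (1 + t * sc a (ω x)) := by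
      intro ω
      unfold hh
      rw [mul_assoc, Finset.prod_inter_mul_prod_sdiff]
    simp only [hsplit]
    have hb2 : ∀ ω : V → Bool, |φ ω * ∏ x ∈ B ∩ F, (1 + t * sc a (ω x))| ≤
        1 * (|1 + t * sc a true| + |1 + t * sc a false|) ^ (B ∩ F).card := by
      intro ω
      rw [abs_mul]
      exact mul_le_mul (hCφ ω) (bdd (fun b => 1 + t * sc a b) (B ∩ F) ω) (abs_nonneg _)
        zero_le_one
    have hm2 : Measurable fun ω : V → Bool => φ ω * ∏ x ∈ B ∩ F, (1 + t * sc a (ω x)) :=
      hm.mul (meas (fun b => 1 + t * sc a b) (B ∩ F))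
    have e := many h q hq (fun ω => φ ω * ∏ x ∈ B ∩ F, (1 + t * sc a (ω x))) _ hm2 hb2 a
      (fun b => 1 + t * sc a b) (B \ F) (fun x hx => hB x (Finset.mem_sdiff.mp hx).1)
      (by
        intro y hy ω b
        rw [hupd y (Finset.mem_sdiff.mp hy).2 ω b]
        congr 1
        refine Finset.prod_congr rfl fun x hx => ?_
        rw [Function.update_of_ne]
        rintro rfl
        exact (Finset.mem_sdiff.mp hy).2 (Finset.mem_inter.mp hx).2)
    rw [e]
    have e1 : a * (1 + t * sc a true) + (1 - a) * (1 + t * sc a false) = 1 := by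
      simp only [sc, if_true, Bool.false_eq_true, if_false]
      field_simp
      ring
    rw [e1, one_pow, mul_one, ← integral_const_mul]
    have hfac : ∀ b : Bool, 1 - M * t ≤ 1 + t * sc a b := by
      intro b
      have hM0 : 0 < M := lt_of_lt_of_le (by positivity) hM1
      have k1 : 0 ≤ M * t := mul_nonneg hM0.le ht
      cases b
      · simp only [sc, Bool.false_eq_true, if_false]
        have : t * (1 / (1 - a)) ≤ t * M := mul_le_mul_of_nonneg_left hM2 ht
        nlinarith
      · simp only [sc, if_true]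
        have : 0 ≤ t * (1 / a) := by positivity
        linarith
    have h1Mt : 0 ≤ 1 - M * t := by linarith
    have h1Mt1 : 1 - M * t ≤ 1 := by
      have hM0 : 0 < M := lt_of_lt_of_le (by positivity) hM1
      nlinarith [mul_nonneg hM0.le ht]
    refine integral_mono ((intg h q hq φ 1 hm hCφ).const_mul _) (intg h q hq _ _ hm2 hb2)
      fun ω => ?_
    simp only
    rw [mul_comm]
    refine mul_le_mul_of_nonneg_left ?_ (h01 ω).1
    calc (1 - M * t) ^ F.card ≤ (1 - M * t) ^ (B ∩ F).card :=
          pow_le_pow_of_le_one h1Mt h1Mt1 (Finset.card_le_card Finset.inter_subset_right)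
      _ = ∏ _x ∈ B ∩ F, (1 - M * t) := by rw [Finset.prod_const]
      _ ≤ ∏ x ∈ B ∩ F, (1 + t * sc a (ω x)) :=
          Finset.prod_le_prod (fun _ _ => h1Mt) fun x _ => hfac (ω x)

end Pool.Agent.TRP
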