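import Pool.Agent.TRP.T1

/-!
# Trap on site percolation: invariance under automorphisms (target TRANS, helper12)
-/

set_option autoImplicit false

noncomputable section

namespace Pool.Agent.TRP

theorem TRANS_legal {V : Type} [DecidableEq V] (G : SimpleGraph V) (e : V ≃ V)
    (he : ∀ x y, G.Adj (e x) (e y) ↔ G.Adj x y) (O : Set V) (S : Finset V) (x y : V) :
    Legal (brd G O) (S.image e) (e x) (e y) ↔ Legal (brd G (e ⁻¹' O)) S x y := by
  have h1 : e y ∈ S.image e ↔ y ∈ S := by
    rw [Finset.mem_image]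
    constructor
    · rintro ⟨a, ha, hay⟩
      rw [← e.injective hay]
      exact ha
    · intro hy
      exact ⟨y, hy, rfl⟩
  show (G.Adj (e x) (e y) ∧ e x ∈ O ∧ e y ∈ O) ∧ ¬ (e y ∈ S.image e) ↔
    (G.Adj x y ∧ e x ∈ O ∧ e y ∈ O) ∧ ¬ (y ∈ S)
  rw [he, h1]

theorem TRANS_win {V : Type} [DecidableEq V] (G : SimpleGraph V) (e : V ≃ V)
    (he : ∀ x y, G.Adj (e x) (e y) ↔ G.Adj x y) (O : Set V) (n : ℕ) :
    ∀ (S : Finset V) (x : V),
      (Win (brd G O) n (S.image e) (e x) ↔ Win (brd G (e ⁻¹' O)) n S x) := by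
  induction n with
  | zero => intro S x; exact Iff.rfl
  | succ n ih =>
    intro S x
    show (∃ y, Legal (brd G O) (S.image e) (e x) y ∧
      ∀ z, Legal (brd G O) (insert y (S.image e)) y z →
        Win (brd G O) n (insert z (insert y (S.image e))) z) ↔
      (∃ y, Legal (brd G (e ⁻¹' O)) S x y ∧
      ∀ z, Legal (brd G (e ⁻¹' O)) (insert y S) y z →
        Win (brd G (e ⁻¹' O)) n (insert z (insert y S)) z)
    rw [← e.exists_congr_right]
    refine exists_congr fun y => ?_
    rw [TRANS_legal G e he, ← Finset.image_insert]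
    refine and_congr_right fun _ => ?_
    rw [← e.forall_congr_right]
    refine forall_congr' fun z => ?_
    rw [TRANS_legal G e he, ← Finset.image_insert, ih]

theorem TRANS_lose {V : Type} [DecidableEq V] (G : SimpleGraph V) (e : V ≃ V)
    (he : ∀ x y, G.Adj (e x) (e y) ↔ G.Adj x y) (O : Set V) (n : ℕ) (S : Finset V) (x : V) :
    Lose (brd G O) n (S.image e) (e x) ↔ Lose (brd G (e ⁻¹' O)) n S x := by
  show (∀ y, Legal (brd G O) (S.image e) (e x) y → Win (brd G O) n (insert y (S.image e)) y) ↔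
    (∀ y, Legal (brd G (e ⁻¹' O)) S x y → Win (brd G (e ⁻¹' O)) n (insert y S) y)
  rw [← e.forall_congr_right]
  refine forall_congr' fun y => ?_
  rw [TRANS_legal G e he, ← Finset.image_insert, TRANS_win G e he]

/-- invariance under automorphisms -/
theorem p_TRANS : T_TRANS := by
  intro V _ G e he n x ω
  have hO : e ⁻¹' (opn ω (e x)) = opn (fun y => ω (e y)) x := by
    ext y
    show (ω (e y) = false ∨ e y = e x) ↔ (ω (e y) = false ∨ y = x)
    rw [e.apply_eq_iff_eq]
  have h1 := TRANS_win G e he (opn ω (e x)) n {x} x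
  have h2 := TRANS_lose G e he (opn ω (e x)) n {x} x
  rw [Finset.image_singleton, hO] at h1 h2
  show (¬ Win (brd G (opn ω (e x))) n {e x} (e x) ∧ ¬ Lose (brd G (opn ω (e x))) n {e x} (e x)) ↔
    (¬ Win (brd G (opn (fun y => ω (e y)) x)) n {x} x ∧
      ¬ Lose (brd G (opn (fun y => ω (e y)) x)) n {x} x)
  rw [h1, h2]

end Pool.Agent.TRP
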