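import Pool.Agent.TRP.Fin
import Pool.Agent.TRP.P_ABS
import Pool.Agent.TRP.P_COUNT
import Pool.Agent.TRP.P_DELTA
import Pool.Agent.TRP.P_DER
import Pool.Agent.TRP.P_GAME
import Pool.Agent.TRP.LBX
import Pool.Agent.TRP.P_LOC
import Pool.Agent.TRP.P_MEAS
import Pool.Agent.TRP.P_MONO
import Pool.Agent.TRP.P_NU1
import Pool.Agent.TRP.P_NU2
import Pool.Agent.TRP.P_PERM
import Pool.Agent.TRP.P_PROD
import Pool.Agent.TRP.P_RES
import Pool.Agent.TRP.P_STRAT
import Pool.Agent.TRP.P_TRANS

/-!
# Trap on site percolation of `ℤ²`: the theorems without hypotheses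
-/

set_option autoImplicit false

open MeasureTheory

noncomputable section

namespace Pool.Agent.TRP

theorem all_GAME : T_GAME := p_GAME p_NU1 p_NU2 p_MONO

theorem all_DELTA : T_DELTA := p_DELTA all_GAME p_MONO p_NU1

theorem all_PROD : T_PROD := p_PROD p_RES

theorem all_DER : T_DER := p_DER p_RES

theorem all_LB : T_LB := lbx p_RES all_PROD

/-- No draws from the origin when the even sites are closed with probability `a > 0`. -/
theorem no_draw (a b : ℝ) (ha : 0 < a) (ha1 : a ≤ 1) (hb : 0 ≤ b) (hb1 : b ≤ 1) :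
    law (twoDens a b) (drawEvent 2) = 0 := by
  rcases lt_or_eq_of_le ha1 with h | h
  · rw [twoDens_eq]
    exact asm1 p_MONO p_STRAT p_NU1 all_DELTA p_MEAS p_LOC p_TRANS p_PERM p_RES all_PROD all_DER
      all_LB p_COUNT p_ABS a b ha h hb hb1
  · refine draw_closed p_RES (twoDens a b) (fun x => ?_) ?_
    · rw [twoDens_eq]
      exact ASM_.qq_mem ha.le ha1 hb hb1 x
    · rw [twoDens_eq, ASM_.qq_ev]
      · exact h
      · simp [Ev]

/-- `θ_2(p) = 0` for `p > 0`. -/
theorem theta_two (p : ℝ) (hp : 0 < p) (hp1 : p ≤ 1) : theta 2 p = 0 := by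
  have h := no_draw p p hp hp1 hp.le hp1
  rw [twoDens_self] at h
  rw [theta, measureReal_def, h]
  rfl

/-- `θ_2` is non-increasing. -/
theorem theta_two_anti : AntitoneOn (theta 2) (Set.Icc 0 1) := by
  intro p hp q hq hpq
  rcases eq_or_lt_of_le hpq with h | h
  · rw [h]
  · rw [theta_two q (lt_of_le_of_lt hp.1 h) hq.2]
    exact measureReal_nonneg

end Pool.Agent.TRP
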