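import Mathlib

/-!
# Trap on site percolation: definitions

The game Trap, the random board and the draw probability `theta d p`.
-/

set_option autoImplicit false

open MeasureTheory

noncomputable section

namespace Pool.Agent.TRP

/-- A legal move of Trap on the graph `G`: the token is at `x`, `S` is the set of vertices it has
visited, and it moves along an edge to a vertex `y` it has never visited. -/
def Legal {V : Type} (G : SimpleGraph V) (S : Finset V) (x y : V) : Prop :=
  G.Adj x y ∧ y ∉ S

/-- A strategy assigns a legal move, where one exists, to each position. A position is the set of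
visited vertices together with the current vertex of the token. -/
structure Strategy {V : Type} (G : SimpleGraph V) where
  /-- the vertex to which the token is moved -/
  move : Finset V → V → V
  /-- the move is legal as soon as some legal move exists -/
  legal : ∀ S x, (∃ y, Legal G S x y) → Legal G S x (move S x)

/-- The position after `n` moves when the first player uses `σ`, the second player uses `τ` and the
token starts at `v`; the first player makes the moves number `0, 2, 4, …`. Only the values up to
the first stuck position matter. -/
def pos {V : Type} [DecidableEq V] {G : SimpleGraph V} (σ τ : Strategy G) (v : V) :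
    ℕ → Finset V × V
  | 0 => ({v}, v)
  | n + 1 =>
    let q := pos σ τ v n
    let y := if Even n then σ.move q.1 q.2 else τ.move q.1 q.2
    (insert y q.1, y)

/-- The player to move has no legal move. -/
def Stuck {V : Type} (G : SimpleGraph V) (q : Finset V × V) : Prop :=
  ∀ y, ¬ Legal G q.1 q.2 y

/-- The play ends after exactly `n` moves. -/
def EndsAt {V : Type} [DecidableEq V] {G : SimpleGraph V} (σ τ : Strategy G) (v : V) (n : ℕ) :
    Prop :=
  Stuck G (pos σ τ v n) ∧ ∀ m < n, ¬ Stuck G (pos σ τ v m)

/-- The game from `v` is a win for the first player: some strategy of his wins against every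
strategy of the second player (a player without a legal move loses, and the second player is to
move after an odd number of moves). -/
def FirstWins {V : Type} [DecidableEq V] (G : SimpleGraph V) (v : V) : Prop :=
  ∃ σ : Strategy G, ∀ τ : Strategy G, ∃ n, Odd n ∧ EndsAt σ τ v n

/-- The game from `v` is a win for the second player. -/
def SecondWins {V : Type} [DecidableEq V] (G : SimpleGraph V) (v : V) : Prop :=
  ∃ τ : Strategy G, ∀ σ : Strategy G, ∃ n, Even n ∧ EndsAt σ τ v n

/-- The game from `v` is a draw: neither player has a winning strategy. -/
def IsDraw {V : Type} [DecidableEq V] (G : SimpleGraph V) (v : V) : Prop :=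
  ¬ FirstWins G v ∧ ¬ SecondWins G v

/-- The board with the set `O` of open vertices: the subgraph of `G` whose edges join open
vertices. -/
def brd {V : Type} (G : SimpleGraph V) (O : Set V) : SimpleGraph V where
  Adj x y := G.Adj x y ∧ x ∈ O ∧ y ∈ O
  symm := ⟨fun _ _ h => ⟨h.1.symm, h.2.2, h.2.1⟩⟩
  loopless := ⟨fun _ h => G.irrefl h.1⟩

/-- The nearest-neighbour lattice `ℤ^d`. -/
def lattice (d : ℕ) : SimpleGraph (Fin d → ℤ) where
  Adj x y := ∑ i, |x i - y i| = 1
  symm := ⟨fun x y h => by
    rw [← h]
    exact Finset.sum_congr rfl fun i _ => abs_sub_comm _ _⟩
  loopless := ⟨fun x h => by simp at h⟩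

/-- The event that the game from the origin is a draw. A configuration `ω` tells for every site
whether it is closed (`true`) or open (`false`). When the origin is closed the game is a win for
the first player. -/
def drawEvent (d : ℕ) : Set ((Fin d → ℤ) → Bool) :=
  {ω | ω 0 = false ∧ IsDraw (brd (lattice d) {x | ω x = false}) 0}

/-- The law of the state of a site which is closed (`true`) with probability `p` and open (`false`)
otherwise. -/
def bern (p : ℝ) : Measure Bool :=
  ENNReal.ofReal p • Measure.dirac true + ENNReal.ofReal (1 - p) • Measure.dirac false

/-- The random board: independent sites, the site `x` is closed with probability `q x`. -/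
def law {V : Type} (q : V → ℝ) : Measure (V → Bool) :=
  Measure.infinitePi fun x => bern (q x)

/-- The probability `θ_d(p)` that Trap from the origin of the random board is a draw. -/
def theta (d : ℕ) (p : ℝ) : ℝ :=
  (law fun _ : Fin d → ℤ => p).real (drawEvent d)

end Pool.Agent.TRP
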