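import Pool.Agent.TRP.P_ASM

/-!
# Trap on site percolation of `ℤ²`: no draws, final form
-/

set_option autoImplicit false

open MeasureTheory

noncomputable section

namespace Pool.Agent.TRP

/-- Closure densities on `ℤ²`: a site with even coordinate sum is closed with probability `a`, a
site with odd coordinate sum with probability `b`. -/
def twoDens (a b : ℝ) (x : Fin 2 → ℤ) : ℝ := if Even (x 0 + x 1) then a else b

theorem twoDens_eq (a b : ℝ) : twoDens a b = ASM_.qq a b := by
  classical
  funext x
  unfold twoDens ASM_.qq Ev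
  by_cases h : Even (x 0 + x 1)
  · rw [if_pos h, if_pos h]
  · rw [if_neg h, if_neg h]

theorem twoDens_self (p : ℝ) : twoDens p p = fun _ => p := by
  funext x
  unfold twoDens
  split_ifs <;> rfl

/-- when the origin is almost surely closed there is no draw -/
theorem draw_closed (hRES : T_RES) (q : (Fin 2 → ℤ) → ℝ) (hq : ∀ x, 0 ≤ q x ∧ q x ≤ 1)
    (h0 : q 0 = 1) : law q (drawEvent 2) = 0 := by
  classical
  obtain ⟨iP, hres⟩ := hRES _ q hq
  set ψ : ((Fin 2 → ℤ) → Bool) → ℝ := fun ω => if ω 0 = false then 1 else 0 with hψ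
  have hm : Measurable ψ := ASM_.meas_dep ψ {0} fun ω ω' h => by
    simp only [hψ, h 0 (Finset.mem_singleton_self _)]
  have h1 := hres ψ 1 hm (fun ω => by
    simp only [hψ]; split_ifs <;> simp) 0
  have h2 : ∫ ω, ψ ω ∂(law q) = 0 := by
    rw [h1, h0]
    simp [hψ]
  have hms : MeasurableSet {ω : (Fin 2 → ℤ) → Bool | ω 0 = false} :=
    measurableSet_eq_fun (measurable_pi_apply 0) measurable_const
  have h3 : ψ = Set.indicator {ω : (Fin 2 → ℤ) → Bool | ω 0 = false} 1 := by
    funext ω
    by_cases h : ω 0 = false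
    · rw [Set.indicator_of_mem (show ω ∈ {ω : (Fin 2 → ℤ) → Bool | ω 0 = false} from h)]
      simp [hψ, h]
    · rw [Set.indicator_of_notMem (show ω ∉ {ω : (Fin 2 → ℤ) → Bool | ω 0 = false} from h)]
      simp [hψ, h]
  rw [h3, integral_indicator_one hms, measureReal_def, ENNReal.toReal_eq_zero_iff] at h2
  have h4 : law q {ω : (Fin 2 → ℤ) → Bool | ω 0 = false} = 0 := by
    rcases h2 with h2 | h2
    · exact h2
    · exact absurd h2 (measure_ne_top _ _)
  exact measure_mono_null (fun ω hω => hω.1) h4

end Pool.Agent.TRP
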