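import Pool.Agent.TRP.T1

/-!
# Trap on site percolation: assembly
-/

set_option autoImplicit false

open MeasureTheory

noncomputable section

namespace Pool.Agent.TRP

namespace ASM_

/-- a function of finitely many sites is measurable -/
theorem meas_dep {V : Type} (φ : (V → Bool) → ℝ) (F : Finset V)
    (h : ∀ ω ω' : V → Bool, (∀ y ∈ F, ω y = ω' y) → φ ω = φ ω') : Measurable φ := by
  classical
  set g : (F → Bool) → ℝ := fun η => φ (fun y => if hy : y ∈ F then η ⟨y, hy⟩ else false) with hg
  have h1 : φ = g ∘ fun ω (y : F) => ω y := by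
    funext ω
    simp only [Function.comp_apply, hg]
    apply h
    intro y hy
    rw [dif_pos hy]
  rw [h1]
  exact (measurable_of_finite g).comp (measurable_pi_lambda _ fun y => measurable_pi_apply _)

theorem opn_eq {V : Type} [DecidableEq V] (ω : V → Bool) (x : V) :
    {y | Function.update ω x false y = false} = opn ω x := by
  ext y
  by_cases h : y = x
  · subst h; simp [opn]
  · simp [opn, h]

theorem opn_diff {V : Type} [DecidableEq V] (ω : V → Bool) (x : V) :
    {y | Function.update ω x true y = false} = opn ω x \ {x} := by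
  ext y
  by_cases h : y = x
  · subst h; simp [opn]
  · simp [opn, h]

theorem DD_dep {V : Type} [DecidableEq V] (G : SimpleGraph V) (P : V → Prop) (B X : Finset V)
    (O O' : Set V) (h : ∀ y ∈ B, y ∈ O ↔ y ∈ O') : DD G P B X O = DD G P B X O' := by
  classical
  have : B.filter (· ∈ O) = B.filter (· ∈ O') := Finset.filter_congr h
  unfold DD
  rw [this]

theorem DD_le {V : Type} [DecidableEq V] (hN : T_NU1) (G : SimpleGraph V) (P : V → Prop)
    (hB : Bip G P) (B X : Finset V) (O : Set V) : |DD G P B X O| ≤ X.card := by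
  classical
  obtain ⟨n1, n2⟩ := hN V G P hB
  have k1 := n2 (B.filter (· ∈ O)) (X.filter P)
  have k2 := n2 (B.filter (· ∈ O)) (X.filter (¬ P ·))
  have k3 := n1 (B.filter (· ∈ O)) (B.filter (· ∈ O) ∪ X.filter P) Finset.subset_union_left
  have k4 := n1 (B.filter (· ∈ O)) (B.filter (· ∈ O) ∪ X.filter (¬ P ·)) Finset.subset_union_left
  have k5 : (X.filter P).card ≤ X.card := Finset.card_filter_le _ _
  have k6 : (X.filter (¬ P ·)).card ≤ X.card := Finset.card_filter_le _ _
  unfold DD
  rw [abs_le]
  have k1' : (nu G P (B.filter (· ∈ O) ∪ X.filter P) : ℝ) ≤ nu G P (B.filter (· ∈ O)) + X.card := by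
    exact_mod_cast k1.trans (by omega)
  have k2' : (nu G P (B.filter (· ∈ O) ∪ X.filter (¬ P ·)) : ℝ) ≤
      nu G P (B.filter (· ∈ O)) + X.card := by
    exact_mod_cast k2.trans (by omega)
  have k3' : (nu G P (B.filter (· ∈ O)) : ℝ) ≤ nu G P (B.filter (· ∈ O) ∪ X.filter P) := by
    exact_mod_cast k3
  have k4' : (nu G P (B.filter (· ∈ O)) : ℝ) ≤ nu G P (B.filter (· ∈ O) ∪ X.filter (¬ P ·)) := by
    exact_mod_cast k4
  constructor <;> linarith

/-- the closure densities -/
def qq (a b : ℝ) (x : Fin 2 → ℤ) : ℝ := by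
  classical
  exact if Ev x then a else b

theorem qq_ev {a b : ℝ} {x : Fin 2 → ℤ} (h : Ev x) : qq a b x = a := by
  unfold qq; exact if_pos h

theorem qq_mem {a b : ℝ} (ha : 0 ≤ a) (ha1 : a ≤ 1) (hb : 0 ≤ b) (hb1 : b ≤ 1)
    (x : Fin 2 → ℤ) : 0 ≤ qq a b x ∧ qq a b x ≤ 1 := by
  classical
  unfold qq
  by_cases h : Ev x
  · rw [if_pos h]; exact ⟨ha, ha1⟩
  · rw [if_neg h]; exact ⟨hb, hb1⟩

theorem qq_self (p : ℝ) : qq p p = fun _ => p := by
  classical
  funext x
  unfold qq
  split_ifs <;> rfl

theorem qq_add {a b : ℝ} {x : Fin 2 → ℤ} (h : Ev x) (y : Fin 2 → ℤ) :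
    qq a b (y + x) = qq a b y := by
  classical
  have : Ev (y + x) ↔ Ev y := by
    unfold Ev at h ⊢
    have e : (y + x) 0 + (y + x) 1 = (y 0 + y 1) + (x 0 + x 1) := by
      simp only [Pi.add_apply]; ring
    rw [e, Int.even_add]
    exact ⟨fun k => k.2 h, fun k => ⟨fun _ => h, fun _ => k⟩⟩
  unfold qq
  by_cases hy : Ev y
  · rw [if_pos hy, if_pos (this.2 hy)]
  · rw [if_neg hy, if_neg (fun k => hy (this.1 k))]

theorem Und_anti {V : Type} [DecidableEq V] (hM : T_MONO) (G : SimpleGraph V) (x : V) {n m : ℕ}
    (h : n ≤ m) : Und G m x ⊆ Und G n x := by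
  intro ω hω
  obtain ⟨m1, m2, -⟩ := hM V (brd G (opn ω x))
  exact ⟨fun k => hω.1 (m1 _ _ _ _ h k), fun k => hω.2 (m2 _ _ _ _ h k)⟩

theorem draw_sub (hS : T_STRAT) (n : ℕ) : drawEvent 2 ⊆ Und (lattice 2) n 0 := by
  intro ω hω
  obtain ⟨h0, h1, h2⟩ := hω
  have e : opn ω 0 = {x | ω x = false} := by
    ext y
    constructor
    · rintro (h | h)
      · exact h
      · subst h; exact h0
    · exact fun h => Or.inl h
  obtain ⟨s1, s2⟩ := hS _ (brd (lattice 2) {x | ω x = false}) n 0
  constructor
  · rw [e]; exact fun k => h1 (s1 k)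
  · rw [e]; exact fun k => h2 (s2 k)

end ASM_

open ASM_ in
/-- No draws from an even site when even sites are closed with probability `a ∈ (0, 1)`. -/
theorem asm1 (hMONO : T_MONO) (hSTRAT : T_STRAT) (hNU1 : T_NU1) (hDELTA : T_DELTA)
    (hMEAS : T_MEAS) (hLOC : T_LOC) (hTRANS : T_TRANS) (hPERM : T_PERM) (hRES : T_RES)
    (hPROD : T_PROD) (hDER : T_DER) (hLB : T_LB) (hCOUNT : T_COUNT) (hABS : T_ABS)
    (a b : ℝ) (ha : 0 < a) (ha1 : a < 1) (hb : 0 ≤ b) (hb1 : b ≤ 1) :
    (law (qq a b)) (drawEvent 2) = 0 := by
  classical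
  obtain ⟨cBip, cFin, cCard, cSub, cEven, cNb⟩ := hCOUNT
  have hq := qq_mem (a := a) (b := b) ha.le ha1.le hb hb1
  obtain ⟨iP, -⟩ := hRES _ (qq a b) hq
  have ha' : 0 < 1 - a := by linarith
  set P := law (qq a b) with hP
  set G := lattice 2 with hG
  set T : ℕ → ℝ := fun n => P.real (Und G n 0) with hT
  choose F hF using fun n => hLOC _ G cFin n 0
  set M : ℝ := max (1 / a) (1 / (1 - a)) with hM
  have hM1 : 1 / a ≤ M := le_max_left _ _
  have hM2 : 1 / (1 - a) ≤ M := le_max_right _ _
  have hM0 : 0 < M := lt_of_lt_of_le (by positivity) hM1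
  -- translations
  have tr : ∀ (n : ℕ) (x : Fin 2 → ℤ), Ev x → P.real (Und G n x) = T n ∧
      ∀ ω ω' : (Fin 2 → ℤ) → Bool, (∀ y ∈ (F n).image (· + x), ω y = ω' y) →
        (ω ∈ Und G n x ↔ ω' ∈ Und G n x) := by
    intro n x hx
    set e : (Fin 2 → ℤ) ≃ (Fin 2 → ℤ) := Equiv.addRight x with he
    have hadj : ∀ u v, G.Adj (e u) (e v) ↔ G.Adj u v := by
      intro u v
      simp only [hG, lattice, he, Equiv.coe_addRight, Pi.add_apply, add_sub_add_right_eq_sub]
    have h1 : ∀ ω, ω ∈ Und G n x ↔ (fun y => ω (e y)) ∈ Und G n 0 := by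
      intro ω
      have := hTRANS _ G e hadj n 0 ω
      have e0 : e 0 = x := by simp [he]
      rwa [e0] at this
    have hmp : P.map (fun ω y => ω (e y)) = P := hPERM _ (qq a b) hq e fun y => qq_add hx y
    have hmeas : Measurable (fun (ω : (Fin 2 → ℤ) → Bool) y => ω (e y)) :=
      measurable_pi_lambda _ fun y => measurable_pi_apply _
    constructor
    · have h2 : Und G n x = (fun (ω : (Fin 2 → ℤ) → Bool) y => ω (e y)) ⁻¹' (Und G n 0) := by
        ext ω; exact h1 ω
      rw [hT, h2]
      simp only
      conv_rhs => rw [← hmp]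
      rw [measureReal_def, measureReal_def, Measure.map_apply hmeas (hMEAS _ G n 0)]
    · intro ω ω' hω
      rw [h1, h1]
      apply hF
      intro y hy
      exact hω _ (Finset.mem_image_of_mem _ hy)
  have key : ⨅ n, T n = 0 := by
    refine hABS T (fun n => (F n).card) M (1 / (2 * (a * (1 - a)))) (min a (1 - a)) hM0
      (by positivity) (lt_min ha ha') (fun n => measureReal_nonneg) ?_ ?_
    · intro n m hnm
      exact measureReal_mono (Und_anti hMONO G 0 hnm)
    · intro L hL
      set B := box L with hB
      set X := box (L + 1) \ box L with hX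
      set BE := B.filter Ev with hBE
      set N := (B ∪ X).card with hN
      have hqB : ∀ x ∈ BE, qq a b x = a := fun x hx => qq_ev (Finset.mem_filter.1 hx).2
      have hXc : (X.card : ℝ) = 8 * L + 8 := by
        have h1 : X.card + B.card = (box (L + 1)).card :=
          Finset.card_sdiff_add_card_eq_card (cSub L)
        rw [hB, cCard, cCard] at h1
        have h2 : X.card = 8 * L + 8 := by
          have : (2 * (L + 1) + 1) ^ 2 = (2 * L + 1) ^ 2 + (8 * L + 8) := by ring
          omega
        rw [h2]; push_cast; ring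
      have hdisj : Disjoint B X := Finset.disjoint_sdiff
      have hNL : L ≤ N := by
        have h1 : B.card ≤ N := Finset.card_le_card Finset.subset_union_left
        rw [hB, cCard] at h1
        nlinarith
      set D : ((Fin 2 → ℤ) → Bool) → ℝ := fun ω => DD G Ev B X {y | ω y = false} with hD
      have Ddep : ∀ ω ω' : (Fin 2 → ℤ) → Bool, (∀ y ∈ B, ω y = ω' y) → D ω = D ω' := by
        intro ω ω' h
        apply DD_dep
        intro y hy
        simp only [Set.mem_ofPred_eq, h y hy]
      have Dmeas : Measurable D := meas_dep D B Ddep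
      have Dle : ∀ ω, |D ω| ≤ 8 * L + 8 := by
        intro ω
        rw [← hXc]
        exact DD_le hNU1 G Ev cBip B X _
      obtain ⟨p1, p2, p3, p4⟩ := hPROD _ (qq a b) hq a ha ha1 BE hqB
      have hint : ∀ t, Integrable (hh a BE t) P := by
        intro t
        by_contra hcon
        have := p2 t
        rw [integral_undef hcon] at this
        exact zero_ne_one this
      refine ⟨BE.card, N, fun t => ∫ ω, D ω * hh a BE t ω ∂P, fun t => ∑ x ∈ BE,
        ∫ ω, (D (Function.update ω x true) - D (Function.update ω x false)) * hh a BE t ω ∂P,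
        ?_, ?_, ?_, ?_, ?_, hNL⟩
      · exact cEven L BE fun x => Finset.mem_filter
      · rw [← cCard L]
        exact Finset.card_filter_le _ _
      · intro t ht0 ht
        have hpos : ∀ ω, 0 < hh a BE t ω := fun ω => p1 t ω
          (by rw [abs_of_nonneg ht0]; exact lt_of_lt_of_le ht (min_le_left _ _))
          (by rw [abs_of_nonneg ht0]; exact lt_of_lt_of_le ht (min_le_right _ _))
        have h1 : ‖∫ ω, D ω * hh a BE t ω ∂P‖ ≤ ∫ ω, (8 * L + 8) * hh a BE t ω ∂P := by
          apply norm_integral_le_of_norm_le ((hint t).const_mul _)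
          refine Filter.Eventually.of_forall fun ω => ?_
          rw [norm_mul, Real.norm_eq_abs, Real.norm_eq_abs, abs_of_pos (hpos ω)]
          exact mul_le_mul_of_nonneg_right (Dle ω) (hpos ω).le
        rw [integral_const_mul, p2, mul_one, Real.norm_eq_abs] at h1
        exact h1
      · intro t
        exact hDER _ (qq a b) hq a ha ha1 BE hqB D (8 * L + 8) Dmeas Dle t
      · intro n hn t ht0 ht hMt
        have hpos : ∀ ω, 0 < hh a BE t ω := fun ω => p1 t ω
          (by rw [abs_of_nonneg ht0]; exact lt_of_lt_of_le ht (min_le_left _ _))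
          (by rw [abs_of_nonneg ht0]; exact lt_of_lt_of_le ht (min_le_right _ _))
        rw [← nsmul_eq_mul]
        apply Finset.card_nsmul_le_sum
        intro x hx
        obtain ⟨hxB, hxE⟩ := Finset.mem_filter.1 hx
        obtain ⟨tn1, tn2⟩ := tr n x hxE
        obtain ⟨tN1, -⟩ := tr N x hxE
        have lb := hLB _ (qq a b) hq a ha ha1 BE hqB (Und G N x) (Und G n x)
          ((F n).image (· + x)) (hMEAS _ G N x) (hMEAS _ G n x) (Und_anti hMONO G x hn) tn2 M t
          hM1 hM2 ht0 hMt
        rw [tn1, tN1, Finset.card_image_of_injective _ (add_left_injective x)] at lb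
        have ec : 1 / (2 * (a * (1 - a))) * t ^ 2 * (BE.card : ℝ) =
            t ^ 2 / (a * (1 - a)) * BE.card / 2 := by
          field_simp
        rw [ec]
        refine lb.trans ?_
        rw [← integral_indicator (hMEAS _ G N x)]
        have md : Measurable (fun ω => D (Function.update ω x true) -
            D (Function.update ω x false)) := by
          apply meas_dep _ B
          intro ω ω' h
          congr 1
          · apply Ddep
            intro y hy
            by_cases hyx : y = x
            · subst hyx; simp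
            · rw [Function.update_of_ne hyx, Function.update_of_ne hyx]; exact h y hy
          · apply Ddep
            intro y hy
            by_cases hyx : y = x
            · subst hyx; simp
            · rw [Function.update_of_ne hyx, Function.update_of_ne hyx]; exact h y hy
        apply integral_mono_of_nonneg
        · refine Filter.Eventually.of_forall fun ω => ?_
          exact Set.indicator_nonneg (fun _ _ => (hpos _).le) ω
        · refine (hint t).bdd_mul (c := 2 * (8 * L + 8)) md.aestronglyMeasurable ?_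
          refine Filter.Eventually.of_forall fun ω => ?_
          rw [Real.norm_eq_abs]
          refine (abs_sub _ _).trans ?_
          have := Dle (Function.update ω x true)
          have := Dle (Function.update ω x false)
          linarith
        · refine Filter.Eventually.of_forall fun ω => ?_
          simp only
          have hdel := hDELTA _ G Ev cBip B X hdisj (cNb L) (opn ω x) x N hxB (Or.inr rfl) hxE
            le_rfl
          have e1 : D (Function.update ω x true) = DD G Ev B X (opn ω x \ {x}) := by
            rw [hD]; simp only; rw [opn_diff]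
          have e2 : D (Function.update ω x false) = DD G Ev B X (opn ω x) := by
            rw [hD]; simp only; rw [opn_eq]
          rw [e1, e2]
          by_cases hω : ω ∈ Und G N x
          · rw [Set.indicator_of_mem hω]
            have := hdel.2 hω.1 hω.2
            have : 1 ≤ DD G Ev B X (opn ω x \ {x}) - DD G Ev B X (opn ω x) := by linarith
            nlinarith [hpos ω]
          · rw [Set.indicator_of_notMem hω]
            exact mul_nonneg (by linarith [hdel.1]) (hpos ω).le
  have h1 : ∀ n, P.real (drawEvent 2) ≤ T n := fun n => measureReal_mono (draw_sub hSTRAT n)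
  have h2 : P.real (drawEvent 2) ≤ 0 := by
    rw [← key]
    exact le_ciInf h1
  have h3 : P.real (drawEvent 2) = 0 := le_antisymm h2 measureReal_nonneg
  rw [measureReal_def, ENNReal.toReal_eq_zero_iff] at h3
  rcases h3 with h3 | h3
  · exact h3
  · exact absurd h3 (measure_ne_top _ _)

end Pool.Agent.TRP
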