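import Pool.Agent.TRP.T1

/-!
# Trap on site percolation: LB, the Cauchy-Schwarz lower bound (helper1)
-/

set_option autoImplicit false

open MeasureTheory

noncomputable section

namespace Pool.Agent.TRP

namespace LB_

variable {V : Type}

lemma measurable_hh [DecidableEq V] (a : ℝ) (B : Finset V) (t : ℝ) :
    Measurable (hh a B t : (V → Bool) → ℝ) := by
  unfold hh
  refine Finset.measurable_prod _ fun x _ => ?_
  have h1 : Measurable (fun b : Bool => 1 + t * sc a b) := measurable_of_countable _
  exact h1.comp (measurable_pi_apply x)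

lemma abs_sc_le {a : ℝ} (ha : 0 < a) (ha1 : a < 1) (b : Bool) :
    |sc a b| ≤ 1 / a + 1 / (1 - a) := by
  have h1 : 0 < 1 / a := by positivity
  have h2 : 0 < 1 / (1 - a) := by
    have : 0 < 1 - a := by linarith
    positivity
  unfold sc
  split_ifs
  · rw [abs_of_pos h1]; linarith
  · rw [abs_neg, abs_of_pos h2]; linarith

lemma abs_hh_le [DecidableEq V] {a : ℝ} (ha : 0 < a) (ha1 : a < 1) (B : Finset V) (t : ℝ)
    (ω : V → Bool) : |hh a B t ω| ≤ (1 + |t| * (1 / a + 1 / (1 - a))) ^ B.card := by
  unfold hh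
  rw [Finset.abs_prod]
  refine (Finset.prod_le_prod (fun x _ => abs_nonneg _) (fun x _ => ?_)).trans
    (le_of_eq (Finset.prod_const _))
  calc |1 + t * sc a (ω x)| ≤ |(1 : ℝ)| + |t * sc a (ω x)| := abs_add_le _ _
    _ = 1 + |t| * |sc a (ω x)| := by rw [abs_one, abs_mul]
    _ ≤ 1 + |t| * (1 / a + 1 / (1 - a)) := by
        have := mul_le_mul_of_nonneg_left (abs_sc_le ha ha1 (ω x)) (abs_nonneg t)
        linarith

end LB_

open LB_ in
/-- LB: the Cauchy-Schwarz lower bound -/
theorem p_LB (h1 : T_PROD) : T_LB := by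
  intro V _ q hq a ha ha1 B hB U U' F hU hU' hUU hF M t hM1 hM2 ht hMt
  classical
  obtain ⟨hpos, hone, hsq, hlow⟩ := h1 V q hq a ha ha1 B hB
  have hprob : IsProbabilityMeasure (law q) := by
    have h2 := (h1 V q hq a ha ha1 ∅ (by simp)).2.1 0
    have h3 : ∫ _ω : V → Bool, (1 : ℝ) ∂(law q) = 1 := by
      refine Eq.trans ?_ h2
      refine integral_congr_ae (Filter.Eventually.of_forall fun ω => ?_)
      show (1 : ℝ) = hh a ∅ 0 ω
      unfold hh
      rw [Finset.prod_empty]
    rw [integral_const, smul_eq_mul, mul_one, Measure.real] at h3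
    refine ⟨?_⟩
    have h4 := (ENNReal.toReal_eq_one_iff _).1 h3
    exact h4
  have hMt' : t < a := by
    have h2 : t / a ≤ M * t := by
      rw [div_eq_mul_one_div, mul_comm M t]
      exact mul_le_mul_of_nonneg_left hM1 ht
    have h3 : t / a < 1 := lt_of_le_of_lt h2 hMt
    rwa [div_lt_one ha] at h3
  have hMt'' : t < 1 - a := by
    have h2 : t / (1 - a) ≤ M * t := by
      rw [div_eq_mul_one_div, mul_comm M t]
      exact mul_le_mul_of_nonneg_left hM2 ht
    have h3 : t / (1 - a) < 1 := lt_of_le_of_lt h2 hMt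
    rwa [div_lt_one (by linarith)] at h3
  set h : (V → Bool) → ℝ := hh a B t with hh_def
  have hp : ∀ ω, 0 < h ω := fun ω =>
    hpos t ω (by rwa [abs_of_nonneg ht]) (by rwa [abs_of_nonneg ht])
  have hmeas : Measurable h := measurable_hh a B t
  set K : ℝ := (1 + |t| * (1 / a + 1 / (1 - a))) ^ B.card with hK
  have hK0 : 0 ≤ K := (abs_nonneg _).trans (abs_hh_le ha ha1 B t (fun _ => true))
  have hb : ∀ ω, |h ω| ≤ K := abs_hh_le ha ha1 B t
  have hint : Integrable h (law q) :=
    Integrable.of_bound hmeas.aestronglyMeasurable K (Filter.Eventually.of_forall hb)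
  have hint2 : Integrable (fun ω => h ω ^ 2) (law q) := by
    refine Integrable.of_bound (hmeas.pow_const 2).aestronglyMeasurable (K ^ 2)
      (Filter.Eventually.of_forall fun ω => ?_)
    rw [Real.norm_eq_abs, abs_pow]
    exact pow_le_pow_left₀ (abs_nonneg _) (hb ω) 2
  -- the lower bound for `U'`
  have e1 : (1 - M * t) ^ F.card * (law q).real U' ≤ ∫ ω in U', h ω ∂(law q) := by
    have h2 := hlow (U'.indicator 1) F (measurable_one.indicator hU') (fun ω => ?_) ?_ M t hM1 hM2
      ht hMt
    · rw [integral_indicator_one hU'] at h2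
      refine h2.trans (le_of_eq ?_)
      rw [← integral_indicator hU']
      refine integral_congr_ae (Filter.Eventually.of_forall fun ω => ?_)
      by_cases hω : ω ∈ U'
      · simp [hω, hh_def]
      · simp [hω]
    · by_cases hω : ω ∈ U' <;> simp [hω]
    · intro ω ω' hωω
      have h3 := hF ω ω' hωω
      by_cases hω : ω ∈ U'
      · simp [hω, h3.1 hω]
      · have h4 : ω' ∉ U' := fun h5 => hω (h3.2 h5)
        simp [hω, h4]
  -- the difference
  set D : Set (V → Bool) := U' \ U with hD
  have hDm : MeasurableSet D := hU'.diff hU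
  have e2 : ∫ ω in U', h ω ∂(law q) = ∫ ω in U, h ω ∂(law q) + ∫ ω in D, h ω ∂(law q) := by
    rw [← setIntegral_union disjoint_sdiff_self_right hDm hint.integrableOn
      hint.integrableOn, Set.union_sdiff_cancel hUU]
  have e3 : (law q).real D = (law q).real U' - (law q).real U := by
    rw [hD, measureReal_sdiff hUU hU]
  set C : ℝ := ∫ ω in D, h ω ∂(law q) with hC
  set y : ℝ := t ^ 2 / (a * (1 - a)) * B.card with hy
  have e4 : C ^ 2 ≤ (law q).real D * Real.exp y := by
    have h2 : ∀ s : ℝ, 0 ≤ (law q).real D - 2 * s * C + s ^ 2 * ∫ ω, h ω ^ 2 ∂(law q) := by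
      intro s
      have h3 : 0 ≤ ∫ ω, (D.indicator 1 ω - s * h ω) ^ 2 ∂(law q) :=
        integral_nonneg fun ω => sq_nonneg _
      have h4 : ∫ ω, (D.indicator 1 ω - s * h ω) ^ 2 ∂(law q) =
          ∫ ω, (D.indicator (1 : (V → Bool) → ℝ) ω - 2 * s * D.indicator h ω
            + s ^ 2 * h ω ^ 2) ∂(law q) := by
        refine integral_congr_ae (Filter.Eventually.of_forall fun ω => ?_)
        by_cases hω : ω ∈ D
        · simp only [Set.indicator_of_mem hω, Pi.one_apply]
          ring
        · simp only [Set.indicator_of_notMem hω]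
          ring
      have i1 : Integrable (D.indicator (1 : (V → Bool) → ℝ)) (law q) :=
        (integrable_const (1 : ℝ)).indicator hDm
      have i2 : Integrable (fun ω => 2 * s * D.indicator h ω) (law q) :=
        (hint.indicator hDm).const_mul _
      have i3 : Integrable (fun ω => s ^ 2 * h ω ^ 2) (law q) := hint2.const_mul _
      have h5 : ∫ ω, (D.indicator (1 : (V → Bool) → ℝ) ω - 2 * s * D.indicator h ω
            + s ^ 2 * h ω ^ 2) ∂(law q) =
          ∫ ω, (D.indicator (1 : (V → Bool) → ℝ) ω - 2 * s * D.indicator h ω) ∂(law q) +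
            ∫ ω, s ^ 2 * h ω ^ 2 ∂(law q) := integral_add (i1.sub i2) i3
      rw [h4, h5, integral_sub i1 i2, integral_indicator_one hDm,
        integral_const_mul, integral_const_mul, integral_indicator hDm] at h3
      exact h3
    have h3 := h2 (C / Real.exp y)
    have h4 : 0 < Real.exp y := Real.exp_pos y
    have h5 : (C / Real.exp y) ^ 2 * ∫ ω, h ω ^ 2 ∂(law q) ≤
        (C / Real.exp y) ^ 2 * Real.exp y :=
      mul_le_mul_of_nonneg_left (hsq t) (sq_nonneg _)
    have h6 : (C / Real.exp y) ^ 2 * Real.exp y = C ^ 2 / Real.exp y := by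
      field_simp
    have h7 : 2 * (C / Real.exp y) * C = 2 * (C ^ 2 / Real.exp y) := by
      ring
    have h8 : C ^ 2 / Real.exp y ≤ (law q).real D := by linarith
    rwa [div_le_iff₀ h4] at h8
  have e5 : C ≤ √((law q).real U' - (law q).real U) * Real.exp (y / 2) := by
    rw [← e3]
    have h2 : C ^ 2 ≤ (√((law q).real D) * Real.exp (y / 2)) ^ 2 := by
      rw [mul_pow, Real.sq_sqrt measureReal_nonneg, ← Real.exp_nat_mul]
      have h3 : ((2 : ℕ) : ℝ) * (y / 2) = y := by push_cast; ring
      rw [h3]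
      exact e4
    exact (le_abs_self C).trans (abs_le_of_sq_le_sq h2 (by positivity))
  linarith

end Pool.Agent.TRP
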